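import Pool.Agent.H34x.KF.Norm

/-!
# Dirichlet's theorem in the Minkowski space of a number field
-/

set_option autoImplicit false

namespace Pool.Agent.H34x.KG

open NumberField Finset
open Pool.Agent.H34x.KF (nap_sum)

variable {K : Type} [Field K] [NumberField K]

theorem nap_lin (w : InfinitePlace K) (c : Module.Free.ChooseBasisIndex ℤ (𝓞 K) → ℝ) {r : ℝ}
    (hr : 0 ≤ r) (hc : ∀ i, |c i| ≤ r) :
    mixedEmbedding.normAtPlace w (∑ i, c i • mixedEmbedding.latticeBasis K i) ≤
      r * ∑ i, ∑ w, mixedEmbedding.normAtPlace w (mixedEmbedding.latticeBasis K i) := by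
  refine (nap_sum w _ _).trans ?_
  rw [Finset.mul_sum]
  refine Finset.sum_le_sum fun i _ => ?_
  rw [mixedEmbedding.normAtPlace_smul]
  refine mul_le_mul (hc i) ?_ (mixedEmbedding.normAtPlace_nonneg _ _) hr
  exact Finset.single_le_sum (f := fun w => mixedEmbedding.normAtPlace w
    (mixedEmbedding.latticeBasis K i))
    (fun w _ => mixedEmbedding.normAtPlace_nonneg _ _) (Finset.mem_univ w)

theorem emb_lin (n : Module.Free.ChooseBasisIndex ℤ (𝓞 K) → ℤ) :
    mixedEmbedding K ((∑ i, n i • RingOfIntegers.basis K i : 𝓞 K) : K) =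
      ∑ i, (n i : ℝ) • mixedEmbedding.latticeBasis K i := by
  have h0 : ((∑ i, n i • RingOfIntegers.basis K i : 𝓞 K) : K) =
      ∑ i, (n i : K) * integralBasis K i := by
    push_cast
    refine Finset.sum_congr rfl fun i _ => ?_
    rw [integralBasis_apply, zsmul_eq_mul]
  rw [h0, map_sum]
  refine Finset.sum_congr rfl fun i _ => ?_
  rw [mixedEmbedding.latticeBasis_apply, map_mul, map_intCast, Int.cast_smul_eq_zsmul ℝ,
    zsmul_eq_mul]

/-- **Dirichlet's theorem** -/
theorem dirK (K : Type) [Field K] [NumberField K] : ∃ C : ℝ, 1 ≤ C ∧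
    ∀ (θ : mixedEmbedding.mixedSpace K) (N : ℕ), 0 < N → ∃ δ t : 𝓞 K, δ ≠ 0 ∧
      (∀ w : InfinitePlace K, w (δ : K) ≤ C * N) ∧
      ∀ w : InfinitePlace K, mixedEmbedding.normAtPlace w
        (mixedEmbedding K (δ : K) * θ - mixedEmbedding K (t : K)) ≤ C / N := by
  classical
  set ι := Module.Free.ChooseBasisIndex ℤ (𝓞 K) with hι
  set b := mixedEmbedding.latticeBasis K with hb
  set C0 : ℝ := ∑ i, ∑ w, mixedEmbedding.normAtPlace w (b i) with hC0
  have hC00 : 0 ≤ C0 := Finset.sum_nonneg fun i _ => Finset.sum_nonneg fun w _ =>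
    mixedEmbedding.normAtPlace_nonneg _ _
  refine ⟨1 + C0, by linarith, ?_⟩
  intro θ N hN
  have hNR : (0 : ℝ) < N := by exact_mod_cast hN
  have hne : Nonempty ι := by
    rw [← Fintype.card_pos_iff, ← Module.finrank_eq_card_chooseBasisIndex, RingOfIntegers.rank]
    exact Module.finrank_pos
  -- the integers and the coordinates of their multiples
  set δ : (ι → Fin (N + 1)) → 𝓞 K := fun n => ∑ i, ((n i : ℕ) : ℤ) • RingOfIntegers.basis K i
    with hδ
  set x : (ι → Fin (N + 1)) → ι → ℝ := fun n => b.repr (mixedEmbedding K (δ n : K) * θ) with hx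
  have hcell : ∀ (y : ℝ), ⌊(N : ℝ) * Int.fract y⌋₊ < N := by
    intro y
    rw [Nat.floor_lt (mul_nonneg hNR.le (Int.fract_nonneg y))]
    have := Int.fract_lt_one y
    nlinarith
  set cell : (ι → Fin (N + 1)) → (ι → Fin N) := fun n i => ⟨⌊(N : ℝ) * Int.fract (x n i)⌋₊,
    hcell _⟩ with hcelld
  have hcard : Fintype.card (ι → Fin N) < Fintype.card (ι → Fin (N + 1)) := by
    rw [Fintype.card_fun, Fintype.card_fun, Fintype.card_fin, Fintype.card_fin]
    exact Nat.pow_lt_pow_left (Nat.lt_succ_self N) Fintype.card_ne_zero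
  obtain ⟨n, n', hnn, hcc⟩ := Fintype.exists_ne_map_eq_of_card_lt cell hcard
  have hfr : ∀ i, |Int.fract (x n i) - Int.fract (x n' i)| ≤ 1 / N := by
    intro i
    have h1 : ⌊(N : ℝ) * Int.fract (x n i)⌋₊ = ⌊(N : ℝ) * Int.fract (x n' i)⌋₊ := by
      have := congrFun hcc i
      simp only [hcelld, Fin.mk.injEq] at this
      exact this
    have h2 := Nat.floor_le (mul_nonneg hNR.le (Int.fract_nonneg (x n i)))
    have h3 := Nat.floor_le (mul_nonneg hNR.le (Int.fract_nonneg (x n' i)))
    have h4 := Nat.lt_floor_add_one ((N : ℝ) * Int.fract (x n i))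
    have h5 := Nat.lt_floor_add_one ((N : ℝ) * Int.fract (x n' i))
    rw [h1] at h2 h4
    have h6 : |(N : ℝ) * (Int.fract (x n i) - Int.fract (x n' i))| ≤ 1 := by
      rw [abs_le]
      constructor <;> linarith
    rw [abs_mul, abs_of_pos hNR] at h6
    rw [le_div_iff₀ hNR]
    linarith
  set z : ι → ℤ := fun i => ((n i : ℕ) : ℤ) - ((n' i : ℕ) : ℤ) with hz
  set f : ι → ℤ := fun i => ⌊x n i⌋ - ⌊x n' i⌋ with hf
  have hzN : ∀ i, |(z i : ℝ)| ≤ N := by
    intro i
    have h1 : ((n i : ℕ) : ℝ) ≤ N := by exact_mod_cast Nat.lt_succ_iff.1 (n i).2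
    have h2 : ((n' i : ℕ) : ℝ) ≤ N := by exact_mod_cast Nat.lt_succ_iff.1 (n' i).2
    have h3 : (0 : ℝ) ≤ ((n i : ℕ) : ℝ) := Nat.cast_nonneg _
    have h4 : (0 : ℝ) ≤ ((n' i : ℕ) : ℝ) := Nat.cast_nonneg _
    simp only [hz]
    push_cast
    rw [abs_le]
    constructor <;> linarith
  have hδz : (∑ i, z i • RingOfIntegers.basis K i : 𝓞 K) = δ n - δ n' := by
    simp only [hδ, hz, ← Finset.sum_sub_distrib, sub_smul]
  refine ⟨∑ i, z i • RingOfIntegers.basis K i, ∑ i, f i • RingOfIntegers.basis K i, ?_, ?_, ?_⟩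
  · intro h0
    apply hnn
    have h1 := (Fintype.linearIndependent_iff.1 (RingOfIntegers.basis K).linearIndependent) z h0
    funext i
    have h2 := h1 i
    simp only [hz] at h2
    apply Fin.ext
    omega
  · intro w
    rw [← mixedEmbedding.normAtPlace_apply w, emb_lin]
    refine (nap_lin w (fun i => (z i : ℝ)) hNR.le hzN).trans ?_
    rw [← hb, ← hC0]
    nlinarith
  · intro w
    have h1 : mixedEmbedding K ((∑ i, z i • RingOfIntegers.basis K i : 𝓞 K) : K) * θ -
        mixedEmbedding K ((∑ i, f i • RingOfIntegers.basis K i : 𝓞 K) : K) =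
        ∑ i, (Int.fract (x n i) - Int.fract (x n' i)) • b i := by
      have h2 : mixedEmbedding K ((∑ i, z i • RingOfIntegers.basis K i : 𝓞 K) : K) * θ =
          ∑ i, (x n i - x n' i) • b i := by
        rw [hδz]
        have h3 : ((δ n - δ n' : 𝓞 K) : K) = (δ n : K) - (δ n' : K) := by push_cast; ring
        rw [h3, map_sub, sub_mul]
        simp only [sub_smul, Finset.sum_sub_distrib]
        simp only [hx]
        rw [b.sum_repr, b.sum_repr]
      rw [h2, emb_lin, ← Finset.sum_sub_distrib]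
      refine Finset.sum_congr rfl fun i _ => ?_
      rw [← sub_smul]
      congr 1
      simp only [hf]
      push_cast
      have h3 := Int.self_sub_floor (x n i)
      have h4 := Int.self_sub_floor (x n' i)
      linarith
    rw [h1]
    refine (nap_lin w (fun i => Int.fract (x n i) - Int.fract (x n' i)) (by positivity)
      hfr).trans ?_
    rw [← hb, ← hC0, div_mul_eq_mul_div, one_mul]
    apply div_le_div_of_nonneg_right _ hNR.le
    linarith

end Pool.Agent.H34x.KG
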