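import Pool.Agent.H34x.KG.Dio
import Pool.Agent.H34x.KF.Count
import Pool.Agent.H34x.NT.Point
import Pool.Agent.H34x.MA.Dir2

/-!
# Lattices of pairs of integers of a number field
-/

set_option autoImplicit false

namespace Pool.Agent.H34x.KG

open NumberField Finset Filter Topology
open Pool.Agent.H34x.NT (idem)
open Pool.Agent.H34x.MA (TT ex ex_ge ex_le ex_mono TT_mono TT_nonneg TT_succ log2_pos exp_TT
  exp_TT_zero)

variable {K : Type} [Field K] [NumberField K]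

/-- the lattice -/
def LK (b e : Fin 3 → ℕ) (N g : ℕ) (y p q : 𝓞 K) : Prop :=
  (b 0 : 𝓞 K) ^ e 0 ∣ q ∧ (b 1 : 𝓞 K) ^ e 1 ∣ p ∧ (b 2 : 𝓞 K) ^ e 2 ∣ g * q - p ∧
    (N : 𝓞 K) ∣ p - y * q

theorem LK.mono {b e e' : Fin 3 → ℕ} {N g : ℕ} {y p q : 𝓞 K} (h : ∀ i, e i ≤ e' i)
    (hL : LK b e' N g y p q) : LK b e N g y p q :=
  ⟨(pow_dvd_pow _ (h 0)).trans hL.1, (pow_dvd_pow _ (h 1)).trans hL.2.1,
    (pow_dvd_pow _ (h 2)).trans hL.2.2.1, hL.2.2.2⟩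

theorem cast_coprime {x y : ℕ} (h : Nat.Coprime x y) : IsCoprime (x : 𝓞 K) (y : 𝓞 K) := by
  obtain ⟨u, v, huv⟩ := Nat.isCoprime_iff_coprime.2 h
  refine ⟨(u : 𝓞 K), (v : 𝓞 K), ?_⟩
  have := congrArg (fun z : ℤ => (z : 𝓞 K)) huv
  push_cast at this
  exact this

/-- the index -/
def mk (b e : Fin 3 → ℕ) : ℕ := b 0 ^ e 0 * b 1 ^ e 1 * b 2 ^ e 2

theorem mk_cast (b e : Fin 3 → ℕ) : ((mk b e : ℕ) : 𝓞 K) =
    (b 0 : 𝓞 K) ^ e 0 * (b 1 : 𝓞 K) ^ e 1 * (b 2 : 𝓞 K) ^ e 2 := by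
  unfold mk; push_cast; ring

theorem mk_castR (b e : Fin 3 → ℕ) : ((mk b e : ℕ) : ℝ) =
    (b 0 : ℝ) ^ e 0 * (b 1 : ℝ) ^ e 1 * (b 2 : ℝ) ^ e 2 := by
  unfold mk; push_cast; ring

theorem mk_pos {b : Fin 3 → ℕ} (hb : ∀ i, 0 < b i) (e : Fin 3 → ℕ) : 0 < mk b e := by
  have := hb 0; have := hb 1; have := hb 2
  unfold mk; positivity

theorem three_dvd {b : Fin 3 → ℕ} (hbc : ∀ i j, i ≠ j → Nat.Coprime (b i) (b j)) {e : Fin 3 → ℕ}
    {x : 𝓞 K} (h : ∀ i, (b i : 𝓞 K) ^ e i ∣ x) : ((mk b e : ℕ) : 𝓞 K) ∣ x := by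
  rw [mk_cast]
  have c : ∀ i j, i ≠ j → IsCoprime ((b i : 𝓞 K) ^ e i) ((b j : 𝓞 K) ^ e j) := fun i j hij =>
    (cast_coprime (hbc i j hij)).pow
  exact ((c 0 2 (by decide)).mul_left (c 1 2 (by decide))).mul_dvd
    ((c 0 1 (by decide)).mul_dvd (h 0) (h 1)) (h 2)

theorem LK.det {b e : Fin 3 → ℕ} {N g : ℕ} (hbc : ∀ i j, i ≠ j → Nat.Coprime (b i) (b j))
    (hbN : ∀ i, Nat.Coprime (b i) N) (hbg : ∀ i, Nat.Coprime (b i) g) {y p q p' q' : 𝓞 K}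
    (h : LK b e N g y p q) (h' : LK b e N g y p' q') :
    ((mk b e : ℕ) : 𝓞 K) * (N : 𝓞 K) ∣ p * q' - p' * q := by
  have c : IsCoprime ((mk b e : ℕ) : 𝓞 K) (N : 𝓞 K) := by
    rw [mk_cast]
    exact (((cast_coprime (hbN 0)).pow_left).mul_left ((cast_coprime (hbN 1)).pow_left)).mul_left
      ((cast_coprime (hbN 2)).pow_left)
  refine c.mul_dvd (three_dvd hbc fun i => ?_) ?_
  · fin_cases i
    · exact dvd_sub (h'.1.mul_left _) (h.1.mul_left _)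
    · exact dvd_sub (h.2.1.mul_right _) (h'.2.1.mul_right _)
    · have e2 : (g : 𝓞 K) * (p * q' - p' * q) = p * (g * q' - p') - p' * (g * q - p) := by ring
      refine ((cast_coprime (hbg 2)).pow_left).dvd_of_dvd_mul_left ?_
      rw [e2]
      exact dvd_sub (h'.2.2.1.mul_left _) (h.2.2.1.mul_left _)
  · have e2 : p * q' - p' * q = (p - y * q) * q' - (p' - y * q') * q := by ring
    rw [e2]
    exact dvd_sub (h.2.2.2.mul_right _) (h'.2.2.2.mul_right _)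

theorem w_nat (w : InfinitePlace K) (n : ℕ) : w ((n : ℕ) : K) = n := by
  rw [← mixedEmbedding.normAtPlace_apply w]
  have h : mixedEmbedding K ((n : ℕ) : K) = (n : ℝ) • (1 : mixedEmbedding.mixedSpace K) := by
    rw [map_natCast, Nat.cast_smul_eq_nsmul, nsmul_eq_mul, mul_one]
  rw [h, mixedEmbedding.normAtPlace_smul, map_one, mul_one, Nat.abs_cast]

/-- Dirichlet's theorem for the lattice -/
theorem dirL (K : Type) [Field K] [NumberField K] : ∃ C : ℝ, 1 ≤ C ∧ ∀ (b e : Fin 3 → ℕ)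
    (N g : ℕ), (∀ i j, i ≠ j → Nat.Coprime (b i) (b j)) → (∀ i, Nat.Coprime (b i) N) →
    (∀ i, 0 < b i) →
    0 < N → ∀ (y : 𝓞 K) (T : ℝ), 0 < T → (b 0 : ℝ) ^ e 0 ≤ b 0 * T →
    ∀ ξ : mixedEmbedding.mixedSpace K, ∃ p q : 𝓞 K, q ≠ 0 ∧ LK b e N g y p q ∧
      (∀ w : InfinitePlace K, w (q : K) ≤ C * (1 + b 0) * T) ∧
      ∀ w : InfinitePlace K, mixedEmbedding.normAtPlace w
        (mixedEmbedding K (q : K) * ξ - mixedEmbedding K (p : K)) ≤ C * (mk b e * N / T) := by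
  obtain ⟨C, hC, hd⟩ := dirK K
  refine ⟨C, hC, ?_⟩
  intro b e N g hbc hbN hb0 hN y T hT hbT ξ
  have hC0 : 0 < C := by linarith
  -- the element `r`
  obtain ⟨r, hr1, hr2, hr3⟩ : ∃ r : 𝓞 K, (b 1 : 𝓞 K) ^ e 1 ∣ r ∧ (b 2 : 𝓞 K) ^ e 2 ∣ g - r ∧
      (N : 𝓞 K) ∣ r - y := by
    have c1 : IsCoprime ((b 2 : ℤ) ^ e 2) ((b 1 : ℤ) ^ e 1 * N) :=
      ((Nat.isCoprime_iff_coprime.2 (hbc 2 1 (by decide))).pow).mul_right
        ((Nat.isCoprime_iff_coprime.2 (hbN 2)).pow_left)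
    have c2 : IsCoprime (N : ℤ) ((b 1 : ℤ) ^ e 1 * (b 2 : ℤ) ^ e 2) :=
      ((Nat.isCoprime_iff_coprime.2 (hbN 1)).symm.pow_right).mul_right
        ((Nat.isCoprime_iff_coprime.2 (hbN 2)).symm.pow_right)
    obtain ⟨s, s1, s2⟩ := idem c1
    obtain ⟨u, u1, u2⟩ := idem c2
    have cast_dvd : ∀ {u v : ℤ}, u ∣ v → (u : 𝓞 K) ∣ (v : 𝓞 K) := by
      rintro u v ⟨c, rfl⟩
      push_cast
      exact Dvd.intro _ rfl
    have s1' := cast_dvd s1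
    have s2a := cast_dvd ((Dvd.intro _ rfl).trans s2)
    have s2b := cast_dvd ((Dvd.intro_left _ rfl).trans s2)
    have u1' := cast_dvd u1
    have u2a := cast_dvd ((Dvd.intro _ rfl).trans u2)
    have u2b := cast_dvd ((Dvd.intro_left _ rfl).trans u2)
    push_cast at s1' s2a s2b u1' u2a u2b
    refine ⟨g * s + u * y, dvd_add (s2a.mul_left _) (u2a.mul_right _), ?_, ?_⟩
    · have e1 : (g : 𝓞 K) - (g * s + u * y) = -(g * (s - 1)) - u * y := by ring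
      rw [e1]
      exact dvd_sub ((dvd_neg).2 (s1'.mul_left _)) (u2b.mul_right _)
    · have e1 : (g : 𝓞 K) * (s : 𝓞 K) + u * y - y = g * s + (u - 1) * y := by ring
      rw [e1]
      exact dvd_add (s2b.mul_left _) (u1'.mul_right _)
  set B0 : ℝ := (b 0 : ℝ) ^ e 0 with hB0
  set B1 : ℝ := (b 1 : ℝ) ^ e 1 * (b 2 : ℝ) ^ e 2 * N with hB1
  have hB0p : 0 < B0 := by
    have : (0 : ℝ) < b 0 := by exact_mod_cast hb0 0
    positivity
  have hNR : (0 : ℝ) < N := by exact_mod_cast hN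
  have hB1p : 0 < B1 := by
    have : (0 : ℝ) < b 1 := by exact_mod_cast hb0 1
    have : (0 : ℝ) < b 2 := by exact_mod_cast hb0 2
    positivity
  set n : ℕ := ⌈T / B0⌉₊ with hn
  have hn0 : 0 < n := Nat.ceil_pos.2 (by positivity)
  have hnR : (0 : ℝ) < n := by exact_mod_cast hn0
  have hn1 : T / B0 ≤ n := Nat.le_ceil _
  have hn2 : (n : ℝ) ≤ T / B0 + 1 := (Nat.ceil_lt_add_one (by positivity)).le
  obtain ⟨δ, t, hδ, h1, h2⟩ := hd ((B0 / B1) • (ξ - mixedEmbedding K (r : K))) n hn0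
  have hb0K : (b 0 : 𝓞 K) ≠ 0 := by exact_mod_cast (hb0 0).ne'
  refine ⟨(b 0 : 𝓞 K) ^ e 0 * δ * r + (b 1 : 𝓞 K) ^ e 1 * (b 2 : 𝓞 K) ^ e 2 * N * t,
    (b 0 : 𝓞 K) ^ e 0 * δ, mul_ne_zero (pow_ne_zero _ hb0K) hδ, ⟨Dvd.intro _ rfl, ?_, ?_, ?_⟩,
    ?_, ?_⟩
  · refine dvd_add (hr1.mul_left _) ?_
    exact ⟨(b 2 : 𝓞 K) ^ e 2 * N * t, by ring⟩
  · obtain ⟨z, hz⟩ := hr2
    refine ⟨(b 0 : 𝓞 K) ^ e 0 * δ * z - (b 1 : 𝓞 K) ^ e 1 * N * t, ?_⟩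
    linear_combination ((b 0 : 𝓞 K) ^ e 0 * δ) * hz
  · obtain ⟨z, hz⟩ := hr3
    refine ⟨(b 0 : 𝓞 K) ^ e 0 * δ * z + (b 1 : 𝓞 K) ^ e 1 * (b 2 : 𝓞 K) ^ e 2 * t, ?_⟩
    linear_combination ((b 0 : 𝓞 K) ^ e 0 * δ) * hz
  · intro w
    have e1 : (((b 0 : 𝓞 K) ^ e 0 * δ : 𝓞 K) : K) = ((b 0 ^ e 0 : ℕ) : K) * (δ : K) := by
      push_cast; ring
    rw [e1, map_mul, w_nat]
    push_cast
    rw [← hB0]
    calc B0 * w (δ : K) ≤ B0 * (C * n) := by gcongr; exact h1 w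
      _ ≤ B0 * (C * (T / B0 + 1)) := by gcongr
      _ = C * (T + B0) := by field_simp
      _ ≤ C * (T + b 0 * T) := by gcongr
      _ = C * (1 + b 0) * T := by ring
  · intro w
    have e1 : mixedEmbedding K (((b 0 : 𝓞 K) ^ e 0 * δ : 𝓞 K) : K) * ξ -
        mixedEmbedding K (((b 0 : 𝓞 K) ^ e 0 * δ * r +
          (b 1 : 𝓞 K) ^ e 1 * (b 2 : 𝓞 K) ^ e 2 * N * t : 𝓞 K) : K) =
        B1 • (mixedEmbedding K (δ : K) * ((B0 / B1) • (ξ - mixedEmbedding K (r : K))) -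
          mixedEmbedding K (t : K)) := by
      have k1 : mixedEmbedding K (((b 0 : 𝓞 K) ^ e 0 * δ : 𝓞 K) : K) =
          B0 • mixedEmbedding K (δ : K) := by
        have k2 : (((b 0 : 𝓞 K) ^ e 0 * δ : 𝓞 K) : K) = ((b 0 ^ e 0 : ℕ) : K) * (δ : K) := by
          push_cast; ring
        rw [k2, map_mul, map_natCast, ← nsmul_eq_mul, ← Nat.cast_smul_eq_nsmul ℝ]
        push_cast
        rfl
      have k3 : mixedEmbedding K (((b 0 : 𝓞 K) ^ e 0 * δ * r +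
          (b 1 : 𝓞 K) ^ e 1 * (b 2 : 𝓞 K) ^ e 2 * N * t : 𝓞 K) : K) =
          B0 • (mixedEmbedding K (δ : K) * mixedEmbedding K (r : K)) +
            B1 • mixedEmbedding K (t : K) := by
        have k2 : (((b 0 : 𝓞 K) ^ e 0 * δ * r +
          (b 1 : 𝓞 K) ^ e 1 * (b 2 : 𝓞 K) ^ e 2 * N * t : 𝓞 K) : K) =
            ((b 0 ^ e 0 : ℕ) : K) * ((δ : K) * (r : K)) +
              ((b 1 ^ e 1 * b 2 ^ e 2 * N : ℕ) : K) * (t : K) := by
          push_cast; ring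
        rw [k2, map_add, map_mul, map_mul, map_mul, map_natCast, map_natCast, ← nsmul_eq_mul,
          ← nsmul_eq_mul, ← Nat.cast_smul_eq_nsmul ℝ, ← Nat.cast_smul_eq_nsmul ℝ]
        push_cast
        rfl
      rw [k1, k3, smul_sub, mul_smul_comm, smul_smul, mul_div_cancel₀ _ hB1p.ne', mul_sub,
        smul_sub, smul_mul_assoc]
      abel
    rw [e1, mixedEmbedding.normAtPlace_smul, abs_of_pos hB1p]
    calc B1 * _ ≤ B1 * (C / n) := by gcongr; exact h2 w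
      _ ≤ B1 * (C / (T / B0)) := by gcongr
      _ = C * (mk b e * N / T) := by
          rw [mk_castR, hB1]
          field_simp
          ring

end Pool.Agent.H34x.KG
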