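import Pool.Agent.H34x.KG.Two
import Pool.Agent.H34x.KF.Fin

/-!
# Common divisors and the choice of a combination
-/

set_option autoImplicit false

namespace Pool.Agent.H34x.KG

open NumberField Finset IsDedekindDomain
open Pool.Agent.H34x.KF (near_int fp_lt_one_iff fp_le_one)

variable {K : Type} [Field K] [NumberField K]

/-- the exact power of a prime in a nonzero element -/
theorem exact_pow (v : HeightOneSpectrum (𝓞 K)) {Q : 𝓞 K} (hQ : Q ≠ 0) :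
    ∃ r : ℕ, Q ∈ v.asIdeal ^ r ∧ Q ∉ v.asIdeal ^ (r + 1) ∧
      ∃ I : Ideal (𝓞 K), Ideal.span {Q} = v.asIdeal ^ r * I ∧ ¬ I ≤ v.asIdeal := by
  have h1 : Ideal.span {Q} ≠ 0 := by
    rw [Ne, Ideal.zero_eq_bot, Ideal.span_singleton_eq_bot]; exact hQ
  have h2 : FiniteMultiplicity v.asIdeal (Ideal.span {Q}) := FiniteMultiplicity.of_prime_left v.prime h1
  obtain ⟨I, hI, hI2⟩ := h2.exists_eq_pow_mul_and_not_dvd
  refine ⟨multiplicity v.asIdeal (Ideal.span {Q}), ?_, ?_, I, hI, ?_⟩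
  · rw [← Ideal.dvd_span_singleton]
    exact ⟨I, hI⟩
  · rw [← Ideal.dvd_span_singleton]
    exact h2.not_pow_dvd_of_multiplicity_lt (Nat.lt_succ_self _)
  · rwa [← Ideal.dvd_iff_le]

/-- local divisibility -/
theorem loc {v : HeightOneSpectrum (𝓞 K)} {Q s : 𝓞 K} (hQ : Q ≠ 0)
    (h : ∀ r : ℕ, Q ∈ v.asIdeal ^ r → s ∈ v.asIdeal ^ r) :
    ∃ x : 𝓞 K, x ∉ v.asIdeal ∧ x * s ∈ Ideal.span {Q} := by
  obtain ⟨r, hr, -, I, hI, hIv⟩ := exact_pow v hQ
  obtain ⟨x, hx, hxv⟩ := Set.not_subset.1 hIv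
  refine ⟨x, hxv, ?_⟩
  rw [hI, mul_comm x s]
  exact Ideal.mul_mem_mul (h r hr) hx

theorem loc_fp {v : HeightOneSpectrum (𝓞 K)} {Q s : 𝓞 K} (hQ : Q ≠ 0)
    (h : ∀ r : ℕ, Q ∈ v.asIdeal ^ r → s ∈ v.asIdeal ^ r) :
    FinitePlace.mk v (s : K) ≤ FinitePlace.mk v (Q : K) := by
  obtain ⟨x, hx, hxs⟩ := loc hQ h
  obtain ⟨z, hz⟩ := Ideal.mem_span_singleton'.1 hxs
  have h1 : FinitePlace.mk v (x : K) = 1 := by
    apply le_antisymm (fp_le_one v x)
    by_contra hcon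
    push Not at hcon
    exact hx ((fp_lt_one_iff v x).1 hcon)
  have h2 : (z : K) * (Q : K) = (x : K) * (s : K) := by exact_mod_cast congrArg (fun z : 𝓞 K => (z : K)) hz
  have h3 := congrArg (FinitePlace.mk v) h2
  rw [map_mul, map_mul, h1, one_mul] at h3
  rw [← h3]
  exact mul_le_of_le_one_left (apply_nonneg _ _) (fp_le_one v z)

/-- the common divisor divides `t` -/
theorem memt {P Q t : 𝓞 K} (hP : P ≠ 0) (hQ : Q ≠ 0) {M : ℕ} (hM : 0 < M)
    (hMt : (M : 𝓞 K) * t ∈ Ideal.span {P, Q})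
    (h : ∀ v : HeightOneSpectrum (𝓞 K), (M : 𝓞 K) ∈ v.asIdeal →
      (∀ r : ℕ, P ∈ v.asIdeal ^ r → t ∈ v.asIdeal ^ r) ∨
        ∀ r : ℕ, Q ∈ v.asIdeal ^ r → t ∈ v.asIdeal ^ r) : t ∈ Ideal.span {P, Q} := by
  set I : Ideal (𝓞 K) := Ideal.span {P, Q} with hI
  have hPI : Ideal.span {P} ≤ I := Ideal.span_mono (by simp)
  have hQI : Ideal.span {Q} ≤ I := Ideal.span_mono (by simp)
  set J : Ideal (𝓞 K) := Submodule.comap (LinearMap.mulRight (𝓞 K) t) I with hJ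
  have hJm : ∀ x : 𝓞 K, x ∈ J ↔ x * t ∈ I := by
    intro x
    rw [hJ, Submodule.mem_comap, LinearMap.mulRight_apply]
  by_contra hcon
  have hJt : J ≠ ⊤ := by
    intro h
    apply hcon
    have : (1 : 𝓞 K) ∈ J := by rw [h]; trivial
    rw [hJm, one_mul] at this
    exact this
  obtain ⟨m, hm, hJm'⟩ := Ideal.exists_le_maximal J hJt
  have hMm : (M : 𝓞 K) ∈ m := hJm' ((hJm _).2 hMt)
  have hm0 : m ≠ ⊥ := by
    intro h
    rw [h, Ideal.mem_bot] at hMm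
    exact hM.ne' (by exact_mod_cast hMm)
  rcases h ⟨m, hm.isPrime, hm0⟩ hMm with h1 | h1
  · obtain ⟨x, hx, hxt⟩ := loc hP h1
    exact hx (hJm' ((hJm x).2 (hPI hxt)))
  · obtain ⟨x, hx, hxt⟩ := loc hQ h1
    exact hx (hJm' ((hJm x).2 (hQI hxt)))

/-- a residue class that avoids the large powers of a prime -/
theorem avoidK (v : HeightOneSpectrum (𝓞 K)) {t u u' : 𝓞 K} (ht : t ≠ 0)
    (h : ∀ r : ℕ, u ∈ v.asIdeal ^ r → u' ∈ v.asIdeal ^ r → t ∈ v.asIdeal ^ r) :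
    ∃ c : 𝓞 K, ∀ y : 𝓞 K, y - c ∈ v.asIdeal → ∀ r : ℕ, u + y * u' ∈ v.asIdeal ^ r →
      t ∈ v.asIdeal ^ r := by
  obtain ⟨r0, hr0, hr1, -⟩ := exact_pow v ht
  have hsmall : ∀ r ≤ r0, t ∈ v.asIdeal ^ r := fun r hr => Ideal.pow_le_pow_right hr hr0
  have hv := v.isPrime
  have key : ∀ y : 𝓞 K, u + y * u' ∉ v.asIdeal ^ (r0 + 1) → ∀ r : ℕ,
      u + y * u' ∈ v.asIdeal ^ r → t ∈ v.asIdeal ^ r := by
    intro y hy r hr
    apply hsmall
    by_contra hcon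
    exact hy (Ideal.pow_le_pow_right (by omega) hr)
  by_cases hb : ∃ y0 : 𝓞 K, u + y0 * u' ∈ v.asIdeal ^ (r0 + 1)
  · obtain ⟨y0, hy0⟩ := hb
    refine ⟨y0 + 1, fun y hy => key y fun hd => hr1 ?_⟩
    have h1 : (y - y0) * u' ∈ v.asIdeal ^ (r0 + 1) := by
      have := Ideal.sub_mem _ hd hy0
      have e : u + y * u' - (u + y0 * u') = (y - y0) * u' := by ring
      rwa [e] at this
    have h2 : y - y0 ∉ v.asIdeal := by
      intro h3
      apply hv.ne_top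
      rw [Ideal.eq_top_iff_one]
      have e : (1 : 𝓞 K) = (y - y0) - (y - (y0 + 1)) := by ring
      rw [e]
      exact Ideal.sub_mem _ h3 hy
    have h3 : u' ∈ v.asIdeal ^ (r0 + 1) := (Ideal.IsPrime.mul_mem_pow v.asIdeal h1).resolve_left h2
    apply h _ _ h3
    have e : u = (u + y0 * u') - y0 * u' := by ring
    rw [e]
    exact Ideal.sub_mem _ hy0 (Ideal.mul_mem_left _ _ h3)
  · push Not at hb
    exact ⟨0, fun y _ => key y (hb y)⟩

/-- many residue classes at once -/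
theorem avoid_all (B : ℕ) (hB : 0 < B) (X : HeightOneSpectrum (𝓞 K) → 𝓞 K → Prop)
    (h : ∀ v : HeightOneSpectrum (𝓞 K), (B : 𝓞 K) ∈ v.asIdeal →
      ∃ c : 𝓞 K, ∀ y : 𝓞 K, y - c ∈ v.asIdeal → X v y) :
    ∃ y0 : 𝓞 K, ∀ y : 𝓞 K, (B : 𝓞 K) ∣ y - y0 → ∀ v : HeightOneSpectrum (𝓞 K),
      (B : 𝓞 K) ∈ v.asIdeal → X v y := by
  classical
  have hB0 : (B : 𝓞 K) ≠ 0 := by exact_mod_cast hB.ne'
  choose! c hc using h
  set s := (Pool.Agent.H34x.KF.finite_dvd hB0).toFinset with hs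
  obtain ⟨y0, hy0⟩ := IsDedekindDomain.exists_forall_sub_mem_ideal (s := s)
    (fun v : HeightOneSpectrum (𝓞 K) => v.asIdeal) (fun _ => 1) (fun v _ => v.prime)
    (fun v _ w _ hvw h => hvw (HeightOneSpectrum.ext h)) (fun v => c v)
  refine ⟨y0, fun y hy v hv => hc v hv y ?_⟩
  have hvs : v ∈ s := by rw [hs, Set.Finite.mem_toFinset]; exact hv
  have h1 := hy0 v hvs
  rw [pow_one] at h1
  have e : y - c v = (y - y0) + (y0 - c v) := by ring
  rw [e]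
  exact Ideal.add_mem _ (Ideal.mem_of_dvd _ hy hv) h1

/-- small representatives -/
theorem small_rep (K : Type) [Field K] [NumberField K] : ∃ C : ℝ, 0 ≤ C ∧ ∀ (B : ℕ), 0 < B →
    ∀ y0 : 𝓞 K, ∃ y : 𝓞 K, (B : 𝓞 K) ∣ y - y0 ∧ ∀ w : InfinitePlace K, w (y : K) ≤ C * B := by
  obtain ⟨C, hC, h⟩ := near_int K
  refine ⟨C, hC, fun B hB y0 => ?_⟩
  have hBR : (0 : ℝ) < B := by exact_mod_cast hB
  obtain ⟨k, hk⟩ := h ((B : ℝ)⁻¹ • mixedEmbedding K (y0 : K))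
  refine ⟨y0 - B * k, ⟨-k, by ring⟩, fun w => ?_⟩
  have e1 : mixedEmbedding K ((y0 - B * k : 𝓞 K) : K) =
      (-(B : ℝ)) • (mixedEmbedding K (k : K) - (B : ℝ)⁻¹ • mixedEmbedding K (y0 : K)) := by
    have e2 : ((y0 - B * k : 𝓞 K) : K) = (y0 : K) - ((B : ℕ) : K) * (k : K) := by push_cast; ring
    rw [e2, map_sub, map_mul, map_natCast, ← nsmul_eq_mul, ← Nat.cast_smul_eq_nsmul ℝ, smul_sub,
      smul_smul, neg_mul, mul_inv_cancel₀ hBR.ne', neg_smul, neg_smul, one_smul]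
    abel
  rw [← mixedEmbedding.normAtPlace_apply w, e1, mixedEmbedding.normAtPlace_smul, abs_neg,
    Nat.abs_cast, mul_comm]
  exact mul_le_mul_of_nonneg_right (hk w) hBR.le

/-- a lower bound for the size of an integer at a place -/
theorem low_size {t : 𝓞 K} (ht : t ≠ 0) {τ : ℝ} (hτ : 1 ≤ τ)
    (h : ∀ w : InfinitePlace K, w (t : K) ≤ τ) (w : InfinitePlace K) :
    1 ≤ w (t : K) * τ ^ Module.finrank ℚ K := by
  classical
  have h1 := one_le_nm ht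
  rw [mixedEmbedding.norm_apply, ← Finset.mul_prod_erase _ _ (Finset.mem_univ w)] at h1
  simp only [mixedEmbedding.normAtPlace_apply] at h1
  have hw0 : 0 ≤ w (t : K) := apply_nonneg w _
  have hτp : 1 ≤ τ ^ Module.finrank ℚ K := one_le_pow₀ hτ
  rcases le_or_gt 1 (w (t : K)) with h2 | h2
  · nlinarith
  · have h3 : w (t : K) ^ w.mult ≤ w (t : K) := by
      have := pow_le_pow_of_le_one hw0 h2.le (show 1 ≤ w.mult from InfinitePlace.mult_pos)
      rwa [pow_one] at this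
    have h4 : ∏ w' ∈ univ.erase w, w' (t : K) ^ w'.mult ≤ τ ^ Module.finrank ℚ K := by
      calc ∏ w' ∈ univ.erase w, w' (t : K) ^ w'.mult ≤ ∏ w' ∈ univ.erase w, τ ^ w'.mult :=
            Finset.prod_le_prod (fun w' _ => pow_nonneg (apply_nonneg w' _) _)
              fun w' _ => pow_le_pow_left₀ (apply_nonneg w' _) (h w') _
        _ ≤ τ ^ Module.finrank ℚ K := by
            rw [Finset.prod_pow_eq_pow_sum]
            apply pow_le_pow_right₀ hτ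
            rw [← InfinitePlace.sum_mult_eq (K := K)]
            exact Finset.sum_le_sum_of_subset (Finset.erase_subset _ _)
    have h5 : 0 ≤ ∏ w' ∈ univ.erase w, w' (t : K) ^ w'.mult :=
      Finset.prod_nonneg fun w' _ => pow_nonneg (apply_nonneg w' _) _
    calc 1 ≤ w (t : K) ^ w.mult * ∏ w' ∈ univ.erase w, w' (t : K) ^ w'.mult := h1
      _ ≤ w (t : K) * τ ^ Module.finrank ℚ K := by gcongr

end Pool.Agent.H34x.KG
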