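import Pool.Agent.H34x.KG.One
import Pool.Agent.H34x.KF.Main

/-!
# Approximation with the exponent `s - 1` at every point
-/

set_option autoImplicit false

namespace Pool.Agent.H34x.KG

open NumberField Finset IsDedekindDomain Filter Topology
open Pool.Agent.H34x.MA (TT TT_nonneg TT_tendsto exp_TT log2_pos)
open Pool.Agent.H34x.KF (height cond d_pos height_le le_height cond_le num_mem norm_le exists_frac
  fp_lt_one_iff fp_le_one)
open Pool.Agent.H34x.NT (primes)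

variable {K : Type} [Field K] [NumberField K]

theorem nm_ge {x : mixedEmbedding.mixedSpace K} {r : ℝ} (hr : 0 ≤ r)
    (h : ∀ w : InfinitePlace K, r ≤ mixedEmbedding.normAtPlace w x) :
    r ^ Module.finrank ℚ K ≤ mixedEmbedding.norm x := by
  rw [mixedEmbedding.norm_apply]
  calc r ^ Module.finrank ℚ K = ∏ w : InfinitePlace K, r ^ w.mult := by
        rw [Finset.prod_pow_eq_pow_sum, InfinitePlace.sum_mult_eq]
    _ ≤ ∏ w : InfinitePlace K, mixedEmbedding.normAtPlace w x ^ w.mult :=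
        Finset.prod_le_prod (fun w _ => pow_nonneg hr _)
          fun w _ => pow_le_pow_left₀ hr (h w) _

/-- the power of a prime in an integer of bounded size -/
theorem small_pow {t : 𝓞 K} (ht : t ≠ 0) {τ : ℝ} (hτ : ∀ w : InfinitePlace K, w (t : K) ≤ τ)
    {k0 : ℕ} (hk : τ ^ Module.finrank ℚ K < 2 ^ k0) (v : HeightOneSpectrum (𝓞 K)) {r : ℕ}
    (hr : t ∈ v.asIdeal ^ r) : r ≤ k0 := by
  have h1 := norm_le hτ
  have h2 : v.asIdeal ^ r ∣ Ideal.span {t} := Ideal.dvd_span_singleton.2 hr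
  have h3 := map_dvd Ideal.absNorm h2
  rw [map_pow] at h3
  have h4 : Ideal.absNorm (Ideal.span {t}) ≠ 0 := by
    rw [Ne, Ideal.absNorm_eq_zero_iff, Ideal.span_singleton_eq_bot]
    exact ht
  have h5 := Nat.le_of_dvd (Nat.pos_of_ne_zero h4) h3
  have h6 : 2 ≤ Ideal.absNorm v.asIdeal := by
    have h7 : Ideal.absNorm v.asIdeal ≠ 0 := fun h => v.ne_bot (Ideal.absNorm_eq_zero_iff.1 h)
    have h8 : Ideal.absNorm v.asIdeal ≠ 1 := fun h =>
      v.isPrime.ne_top (Ideal.absNorm_eq_one_iff.1 h)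
    omega
  have h7 : 2 ^ r ≤ Ideal.absNorm (Ideal.span {t}) := (Nat.pow_le_pow_left h6 r).trans h5
  have h8 : (2 : ℝ) ^ r ≤ (Ideal.absNorm (Ideal.span {t}) : ℝ) := by exact_mod_cast h7
  have h9 : (2 : ℝ) ^ r < 2 ^ k0 := (h8.trans h1).trans_lt hk
  exact ((pow_lt_pow_iff_right₀ one_lt_two).1 h9).le

theorem nat_norm_mem {t : 𝓞 K} (P Q : 𝓞 K) (h : t ∈ Ideal.span {P, Q}) (g : ℕ) :
    ((g * Ideal.absNorm (Ideal.span {t}) : ℕ) : 𝓞 K) ∈ Ideal.span {P, (g : 𝓞 K) * Q} := by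
  have h1 : ((Ideal.absNorm (Ideal.span {t}) : ℕ) : 𝓞 K) ∈ Ideal.span {t} :=
    Ideal.absNorm_mem _
  obtain ⟨z, hz⟩ := Ideal.mem_span_singleton'.1 h1
  obtain ⟨u, v, huv⟩ := Ideal.mem_span_pair.1 h
  push_cast
  rw [← hz, ← huv]
  rw [Ideal.mem_span_pair]
  exact ⟨g * z * u, z * v, by ring⟩

/-- closeness at the primes -/
theorem close_fin {y : K} {α0 P Q t : 𝓞 K} {N g k0 : ℕ} (hg : 0 < g) (hN : 0 < N)
    (hy : y = (α0 : K) / (g : K)) (hQ : Q ≠ 0)
    (h1 : ((N ^ (k0 + 1) * g : ℕ) : 𝓞 K) ∣ P - α0 * Q)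
    (ht : ∀ v : HeightOneSpectrum (𝓞 K), ∀ r : ℕ, t ∈ v.asIdeal ^ r → r ≤ k0)
    (h2 : ∀ v : HeightOneSpectrum (𝓞 K), ((N ^ (k0 + 1) * g : ℕ) : 𝓞 K) ∈ v.asIdeal →
      ∀ r : ℕ, Q ∈ v.asIdeal ^ r → t ∈ v.asIdeal ^ r) (v : HeightOneSpectrum (𝓞 K))
    (hv : FinitePlace.mk v (N : K) < 1) :
    FinitePlace.mk v ((P : K) / ((g * Q : 𝓞 K) : K) - y) ≤ FinitePlace.mk v (N : K) := by
  have hgK : (g : K) ≠ 0 := by exact_mod_cast hg.ne'
  have hQK : (Q : K) ≠ 0 := by exact_mod_cast hQ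
  set f := FinitePlace.mk v with hf
  have hNv : (N : 𝓞 K) ∈ v.asIdeal := by
    rw [← fp_lt_one_iff]
    push_cast
    exact hv
  have hN'v : ((N ^ (k0 + 1) * g : ℕ) : 𝓞 K) ∈ v.asIdeal := by
    push_cast
    rw [pow_succ, mul_assoc]
    exact Ideal.mul_mem_left _ _ (Ideal.mul_mem_right _ _ hNv)
  have h3 : f (N : K) ^ k0 ≤ f (Q : K) := by
    have h4 := loc_fp (v := v) (Q := Q) (s := (N : 𝓞 K) ^ k0) hQ (fun r hr => by
      have h5 := ht v r (h2 v hN'v r hr)
      exact Ideal.pow_le_pow_right h5 (Ideal.pow_mem_pow hNv k0))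
    push_cast at h4
    rw [map_pow] at h4
    exact h4
  obtain ⟨z, hz⟩ := h1
  have e1 : ((P : K) / ((g * Q : 𝓞 K) : K) - y) * ((g : K) * (Q : K)) =
      (N : K) ^ (k0 + 1) * (g : K) * (z : K) := by
    have e2 : (P : K) - (α0 : K) * (Q : K) = (N : K) ^ (k0 + 1) * (g : K) * (z : K) := by
      have := congrArg (fun z : 𝓞 K => (z : K)) hz
      push_cast at this
      exact this
    rw [hy, ← e2]
    push_cast
    field_simp
  have h4 := congrArg f e1
  rw [map_mul, map_mul, map_mul, map_mul, map_pow] at h4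
  have h5 : 0 < f (g : K) := FinitePlace.pos_iff.2 hgK
  have h6 : 0 < f (Q : K) := FinitePlace.pos_iff.2 hQK
  have h7 : f ((P : K) / ((g * Q : 𝓞 K) : K) - y) * (f (g : K) * f (Q : K)) ≤
      f (N : K) * (f (g : K) * f (Q : K)) := by
    rw [h4]
    have h8 : f (z : K) ≤ 1 := fp_le_one v z
    have h9 : 0 ≤ f (N : K) := apply_nonneg f _
    calc f (N : K) ^ (k0 + 1) * f (g : K) * f (z : K) ≤ f (N : K) ^ (k0 + 1) * f (g : K) * 1 := by
          gcongr
      _ = f (N : K) * (f (g : K) * f (N : K) ^ k0) := by ring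
      _ ≤ f (N : K) * (f (g : K) * f (Q : K)) := by gcongr
  exact le_of_mul_le_mul_right h7 (by positivity)

theorem cond_bound' {x : K} {β : 𝓞 K} (hβ : β ≠ 0)
    (hx : ∀ v : HeightOneSpectrum (𝓞 K), FinitePlace.mk v x < 1 → β ∈ v.asIdeal) {b e : ℕ}
    (hb : 2 ≤ b) (hd : (b : 𝓞 K) ^ e ∣ β) {T A a : ℝ} (hA : 0 < A)
    (h2 : ∀ w : InfinitePlace K, w (β : K) ≤ A * Real.exp T)
    (he : Real.exp (a * T) ≤ (b : ℝ) ^ e) :
    cond x ≤ (1 - a) * T + Real.log A + b := by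
  have hb0 : (0 : ℝ) < b := by exact_mod_cast (by omega : 0 < b)
  have h3 := cond_le hβ hx (by omega) hd (A := A * Real.exp T) (by positivity) h2
  rw [Real.log_mul hA.ne' (Real.exp_pos _).ne', Real.log_exp] at h3
  have h4 : a * T ≤ e * Real.log b := by
    have h5 := Real.log_le_log (Real.exp_pos _) he
    rw [Real.log_exp, Real.log_pow] at h5
    exact h5
  have h5 : Real.log b ≤ b := by
    have := Real.log_le_sub_one_of_pos hb0
    linarith
  linarith

theorem main (K : Type) [Field K] [NumberField K] (y : K) {N : ℕ} (hN : 0 < N) (R : ℝ) :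
    ∃ C : ℝ, ∀ α : Fin 3 → ℝ, (∀ i, 0 < α i) → (∀ i, α i ≤ 1) → 1 < ∑ i, α i →
    ∀ ξ : mixedEmbedding.mixedSpace K,
    (∀ w : InfinitePlace K, mixedEmbedding.normAtPlace w ξ ≤ R) →
    mixedEmbedding.norm ξ ≠ 0 → mixedEmbedding.norm (ξ - 1) ≠ 0 →
    ((∀ x : K, mixedEmbedding.norm (ξ - mixedEmbedding K x) ≠ 0) ∨ ∑ i, α i < 2) → ∀ B : ℝ,
    ∃ x : K, x ≠ 0 ∧ x ≠ 1 ∧ B ≤ height x ∧
      (∀ w : InfinitePlace K, mixedEmbedding.normAtPlace w (mixedEmbedding K x - ξ) ≤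
        C * Real.exp (-(∑ i, α i - 1) * height x)) ∧
      (∀ v : HeightOneSpectrum (𝓞 K), FinitePlace.mk v (N : K) < 1 →
        FinitePlace.mk v (x - y) ≤ FinitePlace.mk v (N : K)) ∧
      KF.cond x ≤ α 0 * height x + C ∧ KF.cond x⁻¹ ≤ α 1 * height x + C ∧
      KF.cond (x - 1) ≤ α 2 * height x + C := by
  classical
  obtain ⟨α0, g, hg, hy⟩ := exists_frac y
  obtain ⟨d, hd⟩ : ∃ d, d = Module.finrank ℚ K := ⟨_, rfl⟩
  have hd0 : 0 < d := hd ▸ Module.finrank_pos
  obtain ⟨b, hbp, hbi, hbM⟩ := primes (N * g) 3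
  have hb2 : ∀ i, 2 ≤ b i := fun i => (hbp i).two_le
  have hb0 : ∀ i, 0 < b i := fun i => (hbp i).pos
  have hbc : ∀ i j, i ≠ j → Nat.Coprime (b i) (b j) := fun i j hij =>
    (Nat.coprime_primes (hbp i) (hbp j)).2 (hbi i j hij)
  have hcop : ∀ n, 0 < n → n ≤ N * g → ∀ i, Nat.Coprime (b i) n := fun n hn hle i =>
    ((hbp i).coprime_iff_not_dvd).2 fun h => absurd (Nat.le_of_dvd hn h) (by
      have := hbM i
      omega)
  have hbg : ∀ i, Nat.Coprime (b i) g := hcop g hg (Nat.le_mul_of_pos_left g hN)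
  have hbN1 : ∀ i, Nat.Coprime (b i) N := hcop N hN (Nat.le_mul_of_pos_right N hg)
  obtain ⟨C1, hC1, htwo⟩ := two_points K b hb2 hbc
  obtain ⟨k0, hk0⟩ : ∃ k0 : ℕ, (2 * C1 ^ 2) ^ d < 2 ^ k0 := pow_unbounded_of_one_lt _ one_lt_two
  obtain ⟨N', hN'd⟩ : ∃ N', N' = N ^ (k0 + 1) * g := ⟨_, rfl⟩
  have hN' : 0 < N' := by rw [hN'd]; positivity
  have hbN : ∀ i, Nat.Coprime (b i) N' := fun i => by
    rw [hN'd]
    exact ((hbN1 i).pow_right _).mul_right (hbg i)
  obtain ⟨c, C4, hc, hC4, hone⟩ := one_point K hb0 hbc (g := g) hN' hbN hbg hC1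
  -- the constants
  have hbR : ∀ i, (2 : ℝ) ≤ b i := fun i => by exact_mod_cast hb2 i
  have hgR : (1 : ℝ) ≤ g := by exact_mod_cast hg
  have hN'R : (1 : ℝ) ≤ N' := by exact_mod_cast hN'
  obtain ⟨Bc, hBc⟩ : ∃ Bc : ℝ, Bc = b 0 * b 1 * b 2 := ⟨_, rfl⟩
  have hBc8 : 8 ≤ Bc := by
    rw [hBc]
    have h0 := hbR 0; have h1 := hbR 1; have h2 := hbR 2
    calc (8 : ℝ) = 2 * 2 * 2 := by norm_num
      _ ≤ b 0 * b 1 * b 2 := by gcongr
  have hbBc : ∀ i, (b i : ℝ) ≤ Bc := by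
    have h0 := hbR 0; have h1 := hbR 1; have h2 := hbR 2
    intro i
    rw [hBc]
    fin_cases i
    · calc (b 0 : ℝ) = b 0 * 1 * 1 := by ring
        _ ≤ b 0 * b 1 * b 2 := by gcongr <;> linarith
    · calc (b 1 : ℝ) = 1 * b 1 * 1 := by ring
        _ ≤ b 0 * b 1 * b 2 := by gcongr <;> linarith
    · calc (b 2 : ℝ) = 1 * 1 * b 2 := by ring
        _ ≤ b 0 * b 1 * b 2 := by gcongr <;> linarith
  obtain ⟨R', hR'⟩ : ∃ R' : ℝ, R' = max R 0 := ⟨_, rfl⟩
  have hR'0 : 0 ≤ R' := hR' ▸ le_max_right _ _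
  have hRR' : R ≤ R' := hR' ▸ le_max_left _ _
  obtain ⟨A1, hA1⟩ : ∃ A1 : ℝ, A1 = C4 * (g * R') + C4 * (Bc * N') + C4 * g := ⟨_, rfl⟩
  have hC40 : 0 < C4 := by linarith
  have hA11 : 1 ≤ A1 := by
    have h1 : 0 ≤ C4 * (g * R') := by positivity
    have h2 : 0 ≤ C4 * (Bc * N') := by positivity
    have h3 : 1 ≤ C4 * g := by nlinarith
    rw [hA1]; linarith
  obtain ⟨G1, hG1⟩ : ∃ G1 : ℝ, G1 = (2 * C1 ^ 2) ^ d := ⟨_, rfl⟩
  have hG11 : 1 ≤ G1 := by
    rw [hG1]
    apply one_le_pow₀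
    nlinarith
  obtain ⟨E1, hE1⟩ : ∃ E1 : ℝ, E1 = |Real.log c| + Real.log G1 := ⟨_, rfl⟩
  have hE10 : 0 ≤ E1 := by
    rw [hE1]
    have := Real.log_nonneg hG11
    positivity
  obtain ⟨E2, hE2⟩ : ∃ E2 : ℝ, E2 = Real.log (2 * A1) := ⟨_, rfl⟩
  have hE20 : 0 ≤ E2 := by
    rw [hE2]
    apply Real.log_nonneg
    linarith
  obtain ⟨C5, hC5⟩ : ∃ C5 : ℝ, C5 = C4 * (Bc * N') / c := ⟨_, rfl⟩
  have hC50 : 0 < C5 := by rw [hC5]; positivity
  refine ⟨C5 * Real.exp (2 * E2) + (E1 + E2 + Bc), ?_⟩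
  have hCge : E1 + E2 + Bc ≤ C5 * Real.exp (2 * E2) + (E1 + E2 + Bc) := by
    have : 0 < C5 * Real.exp (2 * E2) := by positivity
    linarith
  intro α ha0 ha1 hs ξ hξR hξ0 hξ1 hξ2 B
  -- the exponents
  obtain ⟨a, haa⟩ : ∃ a : Fin 3 → ℝ, a = ![1 - α 1, 1 - α 0, 1 - α 2] := ⟨_, rfl⟩
  have a0 : a 0 = 1 - α 1 := by rw [haa]; rfl
  have a1 : a 1 = 1 - α 0 := by rw [haa]; rfl
  have a2 : a 2 = 1 - α 2 := by rw [haa]; rfl
  have hsum : ∑ i, a i = 3 - ∑ i, α i := by
    rw [Fin.sum_univ_three, Fin.sum_univ_three, a0, a1, a2]; ring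
  have ha : ∀ i, 0 ≤ a i := by
    have := ha1 0; have := ha1 1; have := ha1 2
    intro i
    fin_cases i
    · show 0 ≤ a 0; linarith
    · show 0 ≤ a 1; linarith
    · show 0 ≤ a 2; linarith
  have ha' : ∀ i, a i < 1 := by
    have := ha0 0; have := ha0 1; have := ha0 2
    intro i
    fin_cases i
    · show a 0 < 1; linarith
    · show a 1 < 1; linarith
    · show a 2 < 1; linarith
  have hgK : (g : K) ≠ 0 := by exact_mod_cast hg.ne'
  have hg0 : (g : ℝ) ≠ 0 := by linarith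
  have hgd : |(g : ℝ)| ^ d ≠ 0 := by rw [Nat.abs_cast]; positivity
  have hgξ : ∀ z : K, (g : ℝ) • ξ - mixedEmbedding K (g * z) =
      (g : ℝ) • (ξ - mixedEmbedding K z) := by
    intro z
    rw [map_mul, map_natCast, ← nsmul_eq_mul, ← Nat.cast_smul_eq_nsmul ℝ, smul_sub]
  have hcd : Cd a g ((g : ℝ) • ξ) := by
    refine ⟨?_, ?_, ?_⟩
    · rw [mixedEmbedding.norm_smul, ← hd]
      exact mul_ne_zero hgd hξ0
    · have := hgξ 1
      rw [mul_one, map_one] at this
      rw [this, mixedEmbedding.norm_smul, ← hd]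
      exact mul_ne_zero hgd hξ1
    · rcases hξ2 with h | h
      · refine Or.inl fun x => ?_
        have := hgξ (x / g)
        rw [mul_div_cancel₀ _ hgK] at this
        rw [this, mixedEmbedding.norm_smul, ← hd]
        exact mul_ne_zero hgd (h _)
      · right
        rw [hsum]
        linarith
  have hsum2 : 0 < 2 - ∑ i, a i := by rw [hsum]; linarith
  -- the scale
  have hlim := exp_zero' (C := C5) hsum2 hd0 1 zero_le_one
  have hν0 : 0 < mixedEmbedding.norm ((g : ℝ) • ξ) :=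
    lt_of_le_of_ne (mixedEmbedding.norm_nonneg _) (Ne.symm hcd.1)
  have hν1 : 0 < mixedEmbedding.norm ((g : ℝ) • ξ - mixedEmbedding K (g : K)) :=
    lt_of_le_of_ne (mixedEmbedding.norm_nonneg _) (Ne.symm hcd.2.1)
  obtain ⟨m0, hm0⟩ := Filter.eventually_atTop.1 ((hlim.eventually (gt_mem_nhds hν0)).and
    ((hlim.eventually (gt_mem_nhds hν1)).and (TT_tendsto.eventually_ge_atTop (B + E1))))
  obtain ⟨m, hm, p, q, p', q', hL, hL', hne, hq, hq', hs1, hs2⟩ :=
    htwo N' g hN' hg hbN hbg a ha ha' α0 ((g : ℝ) • ξ) hcd m0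
  obtain ⟨hm1, hm2, hm3⟩ := hm0 m hm
  have hT : (0 : ℝ) < 2 ^ m := by positivity
  obtain ⟨P, Q, t, hLP, hQ0, ht0, htm, htw, hQc, hQC, hPQ, hloc⟩ :=
    hone (ee b a m) α0 (2 ^ m) ((g : ℝ) • ξ) p q p' q' hT hL hL' hne hq hq' hs1 hs2
  have hmk := mk_le hb2 ha m
  rw [← hBc] at hmk
  rw [exp_TT] at hT hQc hQC hPQ
  obtain ⟨T, hTd⟩ : ∃ T, T = TT m := ⟨_, rfl⟩
  have hT0 : 0 ≤ T := hTd ▸ TT_nonneg m
  rw [← hTd] at hT hQc hQC hPQ hmk hm1 hm2 hm3
  have hdist : mk b (ee b a m) * N' / Real.exp T ≤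
      Bc * N' * Real.exp ((∑ i, a i - 1) * T) := by
    rw [div_le_iff₀ hT]
    calc (mk b (ee b a m) : ℝ) * N' ≤ Bc * Real.exp ((∑ i, a i) * T) * N' := by gcongr
      _ = Bc * N' * (Real.exp ((∑ i, a i - 1) * T) * Real.exp T) := by
          rw [← Real.exp_add]; ring_nf
      _ = _ := by ring
  have hPQ' : ∀ w : InfinitePlace K, mixedEmbedding.normAtPlace w
      (mixedEmbedding K (Q : K) * ((g : ℝ) • ξ) - mixedEmbedding K (P : K)) ≤
        C5 * c * Real.exp ((∑ i, a i - 1) * T) := by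
    intro w
    refine (hPQ w).trans ?_
    have h1 : C5 * c = C4 * (Bc * N') := by rw [hC5]; field_simp
    rw [h1, mul_assoc C4]
    gcongr
  -- nonvanishing
  have hnv : ∀ z : K, (P : K) = (Q : K) * z → mixedEmbedding.norm ((g : ℝ) • ξ -
      mixedEmbedding K z) ≤ (C5 * Real.exp (-(2 - ∑ i, a i) * T)) ^ d := by
    intro z hz
    have h1 : ∀ w : InfinitePlace K, mixedEmbedding.normAtPlace w (mixedEmbedding K (Q : K) *
        ((g : ℝ) • ξ - mixedEmbedding K z)) ≤ C5 * c * Real.exp ((∑ i, a i - 1) * T) := by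
      intro w
      have := hPQ' w
      rwa [hz, map_mul, ← mul_sub] at this
    have h2 := nm_le h1
    rw [map_mul, ← hd] at h2
    have h3 : (c * Real.exp T) ^ d ≤ mixedEmbedding.norm (mixedEmbedding K (Q : K)) := by
      rw [hd]
      apply nm_ge (by positivity)
      intro w
      rw [mixedEmbedding.normAtPlace_apply]
      exact hQc w
    have h4 := mixedEmbedding.norm_nonneg ((g : ℝ) • ξ - mixedEmbedding K z)
    have h5 : (c * Real.exp T) ^ d * mixedEmbedding.norm ((g : ℝ) • ξ - mixedEmbedding K z) ≤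
        (c * Real.exp T) ^ d * (C5 * Real.exp (-(2 - ∑ i, a i) * T)) ^ d := by
      refine (mul_le_mul_of_nonneg_right h3 h4).trans (h2.trans (le_of_eq ?_))
      rw [← mul_pow]
      congr 1
      have : Real.exp ((∑ i, a i - 1) * T) =
          Real.exp T * Real.exp (-(2 - ∑ i, a i) * T) := by
        rw [← Real.exp_add]; ring_nf
      rw [this]; ring
    exact le_of_mul_le_mul_left h5 (by positivity)
  have hP0 : P ≠ 0 := by
    intro h
    have h1 := hnv 0 (by rw [h]; simp)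
    rw [map_zero, sub_zero] at h1
    rw [one_mul] at hm1
    exact absurd h1 (not_le.2 hm1)
  have hP1 : P ≠ g * Q := by
    intro h
    have h1 := hnv g (by rw [h]; push_cast; ring)
    rw [one_mul] at hm2
    exact absurd h1 (not_le.2 hm2)
  -- sizes
  have hgQ0 : (g : 𝓞 K) * Q ≠ 0 := mul_ne_zero (by exact_mod_cast hg.ne') hQ0
  have hgQK : (((g : 𝓞 K) * Q : 𝓞 K) : K) ≠ 0 := by exact_mod_cast hgQ0
  have hPK : (P : K) ≠ 0 := by exact_mod_cast hP0
  have wgQ : ∀ w : InfinitePlace K, w (((g : 𝓞 K) * Q : 𝓞 K) : K) = g * w (Q : K) := by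
    intro w
    have : (((g : 𝓞 K) * Q : 𝓞 K) : K) = (g : K) * (Q : K) := by push_cast; ring
    rw [this, map_mul, w_nat]
  have sQ : ∀ w : InfinitePlace K, w (((g : 𝓞 K) * Q : 𝓞 K) : K) ≤ A1 * Real.exp T := by
    intro w
    rw [wgQ]
    calc (g : ℝ) * w (Q : K) ≤ g * (C4 * Real.exp T) := by gcongr; exact hQC w
      _ = (C4 * g) * Real.exp T := by ring
      _ ≤ A1 * Real.exp T := by
          gcongr
          rw [hA1]
          have h1 : 0 ≤ C4 * (g * R') := by positivity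
          have h2 : 0 ≤ C4 * (Bc * N') := by positivity
          linarith
  have sP : ∀ w : InfinitePlace K, w (P : K) ≤ A1 * Real.exp T := by
    intro w
    rw [← mixedEmbedding.normAtPlace_apply w]
    have e1 : mixedEmbedding K (P : K) = mixedEmbedding K (Q : K) * ((g : ℝ) • ξ) +
        -(mixedEmbedding K (Q : K) * ((g : ℝ) • ξ) - mixedEmbedding K (P : K)) := by abel
    rw [e1]
    refine (mixedEmbedding.normAtPlace_add_le w _ _).trans ?_
    rw [mixedEmbedding.normAtPlace_neg, map_mul, mixedEmbedding.normAtPlace_smul, Nat.abs_cast,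
      mixedEmbedding.normAtPlace_apply]
    have h1 : w (Q : K) * (g * mixedEmbedding.normAtPlace w ξ) ≤
        (C4 * Real.exp T) * (g * R') := by
      have := mixedEmbedding.normAtPlace_nonneg w ξ
      have := (hξR w).trans hRR'
      have := hQC w
      gcongr
    have h2 : C5 * c * Real.exp ((∑ i, a i - 1) * T) ≤ C4 * (Bc * N') * Real.exp T := by
      have h1 : C5 * c = C4 * (Bc * N') := by rw [hC5]; field_simp
      rw [h1]
      gcongr
      nlinarith
    have h3 := hPQ' w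
    calc w (Q : K) * (g * mixedEmbedding.normAtPlace w ξ) + _ ≤
          (C4 * Real.exp T) * (g * R') + C4 * (Bc * N') * Real.exp T := by linarith
      _ = (C4 * (g * R') + C4 * (Bc * N')) * Real.exp T := by ring
      _ ≤ A1 * Real.exp T := by
          gcongr
          rw [hA1]
          have h1 : 0 ≤ C4 * g := by positivity
          linarith
  -- the number
  obtain ⟨x, hx⟩ : ∃ x : K, x = (P : K) / (((g : 𝓞 K) * Q : 𝓞 K) : K) := ⟨_, rfl⟩
  have hup : height x ≤ T + E2 := by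
    have h1 := height_le (α := P) hgQ0 (A := 2 * A1 * Real.exp T)
      (fun w => (sP w).trans (by gcongr; linarith)) (fun w => (sQ w).trans (by gcongr; linarith))
    rw [Real.log_mul (by positivity) (Real.exp_pos _).ne', Real.log_exp, ← hE2, ← hx] at h1
    linarith
  have hlow : T - E1 ≤ height x := by
    have hG0 : 0 < Ideal.absNorm (Ideal.span {t}) := by
      apply Nat.pos_of_ne_zero
      rw [Ne, Ideal.absNorm_eq_zero_iff, Ideal.span_singleton_eq_bot]
      exact ht0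
    have hG0R : (0 : ℝ) < (Ideal.absNorm (Ideal.span {t}) : ℝ) := by exact_mod_cast hG0
    have h1 := le_height (α := P) hgQ0 (A := g * (c * Real.exp T)) (by positivity)
      (fun w => by rw [wgQ]; gcongr; exact hQc w) (Nat.mul_pos hg hG0)
      (nat_norm_mem P Q (htm hP0) g)
    have h2 := norm_le htw
    rw [← hd, ← hG1] at h2
    have h3 := Real.log_le_log hG0R h2
    have h4 := neg_abs_le (Real.log c)
    rw [Nat.cast_mul, Real.log_mul hg0 (by positivity), Real.log_mul hc.ne' (Real.exp_pos _).ne', Real.log_exp,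
      Real.log_mul hg0 hG0R.ne', ← hx] at h1
    rw [hE1]
    linarith
  have hht : T ≤ height x + E1 := by linarith
  have hcond : ∀ (i : Fin 3) (r : ℝ) (x' : K) (β : 𝓞 K), r = 1 - a i → r ≤ 1 → 0 < r → β ≠ 0 →
      (∀ v : HeightOneSpectrum (𝓞 K), FinitePlace.mk v x' < 1 → β ∈ v.asIdeal) →
      (b i : 𝓞 K) ^ ee b a m i ∣ β →
      (∀ w : InfinitePlace K, w (β : K) ≤ 2 * A1 * Real.exp T) →
      cond x' ≤ r * height x + (C5 * Real.exp (2 * E2) + (E1 + E2 + Bc)) := by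
    intro i r x' β hr hr1 hr0 hβ hx' hdv hw
    have h1 := ee_ge a hb2 m i
    rw [← hTd] at h1
    have h2 := cond_bound' hβ hx' (hb2 i) hdv (by positivity) hw h1
    rw [← hr, ← hE2] at h2
    have h3 := hbBc i
    have h4 : r * T ≤ r * (height x + E1) := mul_le_mul_of_nonneg_left hht hr0.le
    have h5 : r * E1 ≤ E1 := mul_le_of_le_one_left hE10 hr1
    linarith
  obtain ⟨k0', k1', k2', k3'⟩ := hLP
  refine ⟨x, ?_, ?_, by linarith, fun w => ?_, fun v hv => ?_, ?_, ?_, ?_⟩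
  · rw [hx]; exact div_ne_zero hPK hgQK
  · intro h
    rw [hx, div_eq_one_iff_eq hgQK] at h
    exact hP1 (by exact_mod_cast h)
  · -- the distance
    have e1 : (mixedEmbedding K x - ξ) * mixedEmbedding K (((g : 𝓞 K) * Q : 𝓞 K) : K) =
        -(mixedEmbedding K (Q : K) * ((g : ℝ) • ξ) - mixedEmbedding K (P : K)) := by
      have e2 : mixedEmbedding K x * mixedEmbedding K (((g : 𝓞 K) * Q : 𝓞 K) : K) =
          mixedEmbedding K (P : K) := by
        rw [← map_mul, hx, div_mul_cancel₀ _ hgQK]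
      have e3 : mixedEmbedding K (((g : 𝓞 K) * Q : 𝓞 K) : K) =
          (g : ℝ) • mixedEmbedding K (Q : K) := by
        have : (((g : 𝓞 K) * Q : 𝓞 K) : K) = (g : K) * (Q : K) := by push_cast; ring
        rw [this, map_mul, map_natCast, ← nsmul_eq_mul, ← Nat.cast_smul_eq_nsmul ℝ]
      rw [sub_mul, e2, e3, mul_smul_comm, mul_smul_comm, mul_comm ξ]
      abel
    have h1 : mixedEmbedding.normAtPlace w (mixedEmbedding K x - ξ) *
        w (((g : 𝓞 K) * Q : 𝓞 K) : K) ≤ C5 * c * Real.exp ((∑ i, a i - 1) * T) := by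
      rw [← mixedEmbedding.normAtPlace_apply w (((g : 𝓞 K) * Q : 𝓞 K) : K), ← map_mul, e1,
        mixedEmbedding.normAtPlace_neg]
      exact hPQ' w
    have h2 : c * Real.exp T ≤ w (((g : 𝓞 K) * Q : 𝓞 K) : K) := by
      rw [wgQ]
      have h3 := hQc w
      have h4 : 0 ≤ w (Q : K) := apply_nonneg w _
      nlinarith
    have h3 : mixedEmbedding.normAtPlace w (mixedEmbedding K x - ξ) * (c * Real.exp T) ≤
        C5 * Real.exp (-(∑ i, α i - 1) * T) * (c * Real.exp T) := by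
      refine (mul_le_mul_of_nonneg_left h2 (mixedEmbedding.normAtPlace_nonneg _ _)).trans
        (h1.trans (le_of_eq ?_))
      have : Real.exp ((∑ i, a i - 1) * T) =
          Real.exp (-(∑ i, α i - 1) * T) * Real.exp T := by
        rw [← Real.exp_add, hsum]; ring_nf
      rw [this]; ring
    have h4 := le_of_mul_le_mul_right h3 (by positivity)
    refine h4.trans ?_
    have h5 : ∑ i, α i ≤ 3 := by
      rw [Fin.sum_univ_three]
      have := ha1 0; have := ha1 1; have := ha1 2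
      linarith
    have h6 : Real.exp (-(∑ i, α i - 1) * T) ≤
        Real.exp (2 * E2) * Real.exp (-(∑ i, α i - 1) * height x) := by
      rw [← Real.exp_add]
      apply Real.exp_le_exp.2
      have h7 : (∑ i, α i - 1) * (height x - T) ≤ (∑ i, α i - 1) * E2 :=
        mul_le_mul_of_nonneg_left (by linarith) (by linarith)
      have h8 : (∑ i, α i - 1) * E2 ≤ 2 * E2 := mul_le_mul_of_nonneg_right (by linarith) hE20
      linarith
    calc C5 * Real.exp (-(∑ i, α i - 1) * T) ≤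
          C5 * (Real.exp (2 * E2) * Real.exp (-(∑ i, α i - 1) * height x)) := by gcongr
      _ = C5 * Real.exp (2 * E2) * Real.exp (-(∑ i, α i - 1) * height x) := by ring
      _ ≤ _ := by
          gcongr
          linarith
  · rw [hx]
    rw [hN'd] at k3' hloc
    exact close_fin hg hN hy hQ0 k3' (fun v r hr => small_pow ht0 htw (hd ▸ hk0) v hr) hloc v hv
  · refine hcond 1 (α 0) x P (by rw [a1]; ring) (ha1 0) (ha0 0) hP0 (fun v hv => ?_) k1'
      (fun w => (sP w).trans (by gcongr; linarith))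
    rw [hx] at hv
    exact num_mem hgQ0 v hv
  · refine hcond 0 (α 1) x⁻¹ (g * Q) (by rw [a0]; ring) (ha1 1) (ha0 1) hgQ0 (fun v hv => ?_)
      (k0'.mul_left _) (fun w => (sQ w).trans (by gcongr; linarith))
    rw [hx, inv_div] at hv
    exact num_mem hP0 v hv
  · refine hcond 2 (α 2) (x - 1) (g * Q - P) (by rw [a2]; ring) (ha1 2) (ha0 2)
      (fun h => hP1 (sub_eq_zero.1 h).symm) (fun v hv => ?_) k2' (fun w => ?_)
    · have e1 : x - 1 = ((P - g * Q : 𝓞 K) : K) / (((g : 𝓞 K) * Q : 𝓞 K) : K) := by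
        rw [hx, div_sub_one hgQK]
        push_cast
        rfl
      rw [e1] at hv
      have := num_mem hgQ0 v hv
      have e2 : (g : 𝓞 K) * Q - P = -(P - g * Q) := by ring
      rw [e2]
      exact neg_mem this
    · have e1 : (((g : 𝓞 K) * Q - P : 𝓞 K) : K) = (((g : 𝓞 K) * Q : 𝓞 K) : K) + -(P : K) := by
        push_cast; ring
      rw [e1]
      refine (w.1.add_le _ _).trans ?_
      rw [w.1.map_neg]
      have h1 : w.1 (((g : 𝓞 K) * Q : 𝓞 K) : K) ≤ A1 * Real.exp T := sQ w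
      have h2 : w.1 (P : K) ≤ A1 * Real.exp T := sP w
      linarith

end Pool.Agent.H34x.KG
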