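import Pool.Agent.H34x.KG.Loc

/-!
# One point with a bounded common divisor from two independent points
-/

set_option autoImplicit false

namespace Pool.Agent.H34x.KG

open NumberField Finset IsDedekindDomain

variable {K : Type} [Field K] [NumberField K]

theorem not_both {v : HeightOneSpectrum (𝓞 K)} {x y : ℕ} (h : Nat.Coprime x y)
    (hx : (x : 𝓞 K) ∈ v.asIdeal) : (y : 𝓞 K) ∉ v.asIdeal := by
  intro hy
  obtain ⟨a, b, hab⟩ := cast_coprime (K := K) h
  apply v.isPrime.ne_top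
  rw [Ideal.eq_top_iff_one, ← hab]
  exact Ideal.add_mem _ (Ideal.mul_mem_left _ _ hx) (Ideal.mul_mem_left _ _ hy)

theorem pow_notmem {v : HeightOneSpectrum (𝓞 K)} {x : 𝓞 K} (h : x ∉ v.asIdeal) (e : ℕ) :
    x ^ e ∉ v.asIdeal := fun h1 => h (v.isPrime.mem_of_pow_mem _ h1)

theorem mul_notmem {v : HeightOneSpectrum (𝓞 K)} {x y : 𝓞 K} (h : x ∉ v.asIdeal)
    (h' : y ∉ v.asIdeal) : x * y ∉ v.asIdeal := fun h1 =>
  (v.isPrime.mem_or_mem h1).elim h h'

theorem mem_of_mul {v : HeightOneSpectrum (𝓞 K)} {x t z : 𝓞 K} {r : ℕ} (h : x ∉ v.asIdeal)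
    (h1 : x * t = z) (h2 : z ∈ v.asIdeal ^ r) : t ∈ v.asIdeal ^ r := by
  rw [← h1] at h2
  exact (Ideal.IsPrime.mul_mem_pow v.asIdeal h2).resolve_left h

/-- the condition at a prime -/
def XX (b : Fin 3 → ℕ) (N : ℕ) (t p q p' q' : 𝓞 K) (v : HeightOneSpectrum (𝓞 K)) (y : 𝓞 K) : Prop :=
  (((b 0 : 𝓞 K) ∈ v.asIdeal ∨ (b 2 : 𝓞 K) ∈ v.asIdeal) → ∀ r : ℕ, p + y * p' ∈ v.asIdeal ^ r →
    t ∈ v.asIdeal ^ r) ∧
  (((b 1 : 𝓞 K) ∈ v.asIdeal ∨ (N : 𝓞 K) ∈ v.asIdeal) → ∀ r : ℕ, q + y * q' ∈ v.asIdeal ^ r →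
    t ∈ v.asIdeal ^ r)

theorem exists_class {b e : Fin 3 → ℕ} {N g : ℕ} (hb : ∀ i, 0 < b i) (hN : 0 < N)
    (hbc : ∀ i j, i ≠ j → Nat.Coprime (b i) (b j)) (hbN : ∀ i, Nat.Coprime (b i) N)
    (hbg : ∀ i, Nat.Coprime (b i) g)
    {y p q p' q' t : 𝓞 K} (h : LK b e N g y p q) (h' : LK b e N g y p' q') (ht : t ≠ 0)
    (hdet : p * q' - p' * q = ((mk b e : ℕ) : 𝓞 K) * N * t) (v : HeightOneSpectrum (𝓞 K))
    (hv : ((b 0 * b 1 * b 2 * N : ℕ) : 𝓞 K) ∈ v.asIdeal) :
    ∃ c : 𝓞 K, ∀ z : 𝓞 K, z - c ∈ v.asIdeal → XX b N t p q p' q' v z := by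
  have hb0 : ∀ i, (b i : 𝓞 K) ≠ 0 := fun i => by exact_mod_cast (hb i).ne'
  have hN0 : (N : 𝓞 K) ≠ 0 := by exact_mod_cast hN.ne'
  rw [mk_cast] at hdet
  obtain ⟨⟨q1, hq1⟩, ⟨p1, hp1⟩, ⟨s1, hs1⟩, ⟨μ, hμ⟩⟩ := h
  obtain ⟨⟨q1', hq1'⟩, ⟨p1', hp1'⟩, ⟨s1', hs1'⟩, ⟨μ', hμ'⟩⟩ := h'
  have hcases : (b 0 : 𝓞 K) ∈ v.asIdeal ∨ (b 1 : 𝓞 K) ∈ v.asIdeal ∨ (b 2 : 𝓞 K) ∈ v.asIdeal ∨
      (N : 𝓞 K) ∈ v.asIdeal := by
    push_cast at hv
    rcases v.isPrime.mem_or_mem hv with h1 | h1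
    · rcases v.isPrime.mem_or_mem h1 with h2 | h2
      · rcases v.isPrime.mem_or_mem h2 with h3 | h3
        · exact Or.inl h3
        · exact Or.inr (Or.inl h3)
      · exact Or.inr (Or.inr (Or.inl h2))
    · exact Or.inr (Or.inr (Or.inr h1))
  rcases hcases with h1 | h1 | h1 | h1
  · -- `b 0`
    have n1 := not_both (hbc 0 1 (by decide)) h1
    have n2 := not_both (hbc 0 2 (by decide)) h1
    have n3 := not_both (hbN 0) h1
    obtain ⟨c, hc⟩ := avoidK v (t := t) (u := p) (u' := p') ht (fun r hr hr' => by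
      refine mem_of_mul (x := (b 1 : 𝓞 K) ^ e 1 * (b 2 : 𝓞 K) ^ e 2 * (N : 𝓞 K)) (z := p * q1' - p' * q1)
        (mul_notmem (mul_notmem (pow_notmem n1 _) (pow_notmem n2 _)) n3) ?_
        (Ideal.sub_mem _ (Ideal.mul_mem_right _ _ hr) (Ideal.mul_mem_right _ _ hr'))
      apply mul_left_cancel₀ (pow_ne_zero (e 0) (hb0 0))
      rw [hq1, hq1'] at hdet
      linear_combination -hdet)
    refine ⟨c, fun z hz => ⟨fun _ => hc z hz, fun h2 => ?_⟩⟩
    exact (h2.elim n1 n3).elim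
  · -- `b 1`
    have n0 := not_both (hbc 1 0 (by decide)) h1
    have n2 := not_both (hbc 1 2 (by decide)) h1
    have n3 := not_both (hbN 1) h1
    obtain ⟨c, hc⟩ := avoidK v (t := t) (u := q) (u' := q') ht (fun r hr hr' => by
      refine mem_of_mul (x := (b 0 : 𝓞 K) ^ e 0 * (b 2 : 𝓞 K) ^ e 2 * (N : 𝓞 K)) (z := p1 * q' - p1' * q)
        (mul_notmem (mul_notmem (pow_notmem n0 _) (pow_notmem n2 _)) n3) ?_
        (Ideal.sub_mem _ (Ideal.mul_mem_left _ _ hr') (Ideal.mul_mem_left _ _ hr))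
      apply mul_left_cancel₀ (pow_ne_zero (e 1) (hb0 1))
      rw [hp1, hp1'] at hdet
      linear_combination -hdet)
    refine ⟨c, fun z hz => ⟨fun h2 => ?_, fun _ => hc z hz⟩⟩
    exact (h2.elim n0 n2).elim
  · -- `b 2`
    have n0 := not_both (hbc 2 0 (by decide)) h1
    have n1 := not_both (hbc 2 1 (by decide)) h1
    have n3 := not_both (hbN 2) h1
    have n4 := not_both (hbg 2) h1
    obtain ⟨c, hc⟩ := avoidK v (t := t) (u := p) (u' := p') ht (fun r hr hr' => by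
      refine mem_of_mul (x := (b 0 : 𝓞 K) ^ e 0 * (b 1 : 𝓞 K) ^ e 1 * (N : 𝓞 K) * (g : 𝓞 K))
        (z := p * s1' - p' * s1)
        (mul_notmem (mul_notmem (mul_notmem (pow_notmem n0 _) (pow_notmem n1 _)) n3) n4) ?_
        (Ideal.sub_mem _ (Ideal.mul_mem_right _ _ hr) (Ideal.mul_mem_right _ _ hr'))
      apply mul_left_cancel₀ (pow_ne_zero (e 2) (hb0 2))
      linear_combination (-(g : 𝓞 K)) * hdet + p * hs1' - p' * hs1)
    refine ⟨c, fun z hz => ⟨fun _ => hc z hz, fun h2 => ?_⟩⟩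
    exact (h2.elim n1 n3).elim
  · -- `N`
    have n0 := not_both (hbN 0).symm h1
    have n1 := not_both (hbN 1).symm h1
    have n2 := not_both (hbN 2).symm h1
    obtain ⟨c, hc⟩ := avoidK v (t := t) (u := q) (u' := q') ht (fun r hr hr' => by
      refine mem_of_mul (x := (b 0 : 𝓞 K) ^ e 0 * (b 1 : 𝓞 K) ^ e 1 * (b 2 : 𝓞 K) ^ e 2)
        (z := μ * q' - μ' * q)
        (mul_notmem (mul_notmem (pow_notmem n0 _) (pow_notmem n1 _)) (pow_notmem n2 _)) ?_
        (Ideal.sub_mem _ (Ideal.mul_mem_left _ _ hr') (Ideal.mul_mem_left _ _ hr))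
      apply mul_left_cancel₀ hN0
      linear_combination -hdet + q' * hμ - q * hμ')
    refine ⟨c, fun z hz => ⟨fun h2 => ?_, fun _ => hc z hz⟩⟩
    exact (h2.elim n0 n2).elim

theorem card_places (K : Type) [Field K] [NumberField K] :
    Fintype.card (InfinitePlace K) ≤ Module.finrank ℚ K := by
  rw [← InfinitePlace.sum_mult_eq (K := K), ← Finset.card_univ, Finset.card_eq_sum_ones]
  exact Finset.sum_le_sum fun w _ => InfinitePlace.mult_pos

/-- **one point** -/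
theorem one_point (K : Type) [Field K] [NumberField K] {b : Fin 3 → ℕ} (hb : ∀ i, 0 < b i)
    (hbc : ∀ i j, i ≠ j → Nat.Coprime (b i) (b j)) {N g : ℕ} (hN : 0 < N)
    (hbN : ∀ i, Nat.Coprime (b i) N) (hbg : ∀ i, Nat.Coprime (b i) g) {C : ℝ} (hC : 1 ≤ C) :
    ∃ c C4 : ℝ, 0 < c ∧ 1 ≤ C4 ∧
    ∀ (e : Fin 3 → ℕ) (y : 𝓞 K) (T : ℝ) (ξ : mixedEmbedding.mixedSpace K) (p q p' q' : 𝓞 K),
      0 < T → LK b e N g y p q → LK b e N g y p' q' → p * q' - p' * q ≠ 0 →
      (∀ w : InfinitePlace K, w (q : K) ≤ C * T) → (∀ w : InfinitePlace K, w (q' : K) ≤ C * T) →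
      (∀ w : InfinitePlace K, mixedEmbedding.normAtPlace w
        (mixedEmbedding K (q : K) * ξ - mixedEmbedding K (p : K)) ≤ C * (mk b e * N / T)) →
      (∀ w : InfinitePlace K, mixedEmbedding.normAtPlace w
        (mixedEmbedding K (q' : K) * ξ - mixedEmbedding K (p' : K)) ≤ C * (mk b e * N / T)) →
      ∃ P Q t : 𝓞 K, LK b e N g y P Q ∧ Q ≠ 0 ∧ t ≠ 0 ∧ (P ≠ 0 → t ∈ Ideal.span {P, Q}) ∧
        (∀ w : InfinitePlace K, w (t : K) ≤ 2 * C ^ 2) ∧
        (∀ w : InfinitePlace K, c * T ≤ w (Q : K)) ∧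
        (∀ w : InfinitePlace K, w (Q : K) ≤ C4 * T) ∧
        (∀ w : InfinitePlace K, mixedEmbedding.normAtPlace w
          (mixedEmbedding K (Q : K) * ξ - mixedEmbedding K (P : K)) ≤ C4 * (mk b e * N / T)) ∧
        ∀ v : HeightOneSpectrum (𝓞 K), (N : 𝓞 K) ∈ v.asIdeal → ∀ r : ℕ, Q ∈ v.asIdeal ^ r →
          t ∈ v.asIdeal ^ r := by
  obtain ⟨Cn, hCn, hrep⟩ := small_rep K
  obtain ⟨d, hd⟩ : ∃ d, d = Module.finrank ℚ K := ⟨_, rfl⟩
  obtain ⟨B, hB⟩ : ∃ B, B = b 0 * b 1 * b 2 * N := ⟨_, rfl⟩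
  have hBp : 0 < B := by
    have := hb 0; have := hb 1; have := hb 2
    rw [hB]; positivity
  have hBR : (1 : ℝ) ≤ B := by exact_mod_cast hBp
  obtain ⟨τ, hτ⟩ : ∃ τ : ℝ, τ = 2 * C ^ 2 := ⟨_, rfl⟩
  have hτ1 : 1 ≤ τ := by rw [hτ]; nlinarith
  obtain ⟨Y, hY⟩ : ∃ Y : ℝ, Y = Cn * B + B * d := ⟨_, rfl⟩
  have hY0 : 0 ≤ Y := by rw [hY]; positivity
  have hτd : 0 < τ ^ d := by positivity
  obtain ⟨c1, hc1⟩ : ∃ c1 : ℝ, c1 = 1 / (C * τ ^ d) := ⟨_, rfl⟩
  have hc10 : 0 < c1 := by rw [hc1]; positivity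
  obtain ⟨c, hc⟩ : ∃ c : ℝ, c = c1 / (4 + 2 * Y) := ⟨_, rfl⟩
  have hc0 : 0 < c := by rw [hc]; positivity
  have hcY : c * (4 + 2 * Y) = c1 := by rw [hc]; field_simp
  refine ⟨c, C * (1 + Y), hc0, by nlinarith, ?_⟩
  intro e y T ξ p q p' q' hT hL hL' hne hq hq' hs hs'
  have hNR : (0 : ℝ) < N := by exact_mod_cast hN
  have hMp : (0 : ℝ) < mk b e := by exact_mod_cast mk_pos hb e
  obtain ⟨D, hD⟩ : ∃ D : ℝ, D = mk b e * N / T := ⟨_, rfl⟩
  have hD0 : 0 < D := by rw [hD]; positivity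
  have hDT : D * T = mk b e * N := by rw [hD]; field_simp
  rw [← hD] at hs hs' ⊢
  obtain ⟨t, ht⟩ := hL.det hbc hbN hbg hL'
  have ht0 : t ≠ 0 := by rintro rfl; exact hne (by rw [ht, mul_zero])
  -- the size of `t`
  have hdw : ∀ w : InfinitePlace K, (mk b e * N : ℝ) * w (t : K) ≤
      C * D * (w (q : K) + w (q' : K)) := by
    intro w
    have e1 : ((mk b e * N : ℕ) : K) * (t : K) = (p : K) * q' - (p' : K) * q := by
      have := congrArg (fun z : 𝓞 K => (z : K)) ht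
      push_cast at this ⊢
      exact this.symm
    have e2 : (mk b e * N : ℝ) * w (t : K) = mixedEmbedding.normAtPlace w
        (mixedEmbedding K (q : K) * (mixedEmbedding K (q' : K) * ξ - mixedEmbedding K (p' : K)) +
          -(mixedEmbedding K (q' : K) *
            (mixedEmbedding K (q : K) * ξ - mixedEmbedding K (p : K)))) := by
      have e3 : mixedEmbedding K (q : K) *
          (mixedEmbedding K (q' : K) * ξ - mixedEmbedding K (p' : K)) +
          -(mixedEmbedding K (q' : K) *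
            (mixedEmbedding K (q : K) * ξ - mixedEmbedding K (p : K))) =
          mixedEmbedding K (((mk b e * N : ℕ) : K) * (t : K)) := by
        rw [e1, map_sub, map_mul, map_mul]
        ring
      rw [e3, mixedEmbedding.normAtPlace_apply, map_mul, w_nat]
      push_cast
      ring
    rw [e2]
    refine (mixedEmbedding.normAtPlace_add_le w _ _).trans ?_
    rw [mixedEmbedding.normAtPlace_neg, map_mul, map_mul, mixedEmbedding.normAtPlace_apply,
      mixedEmbedding.normAtPlace_apply]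
    have h1 := mul_le_mul_of_nonneg_left (hs' w) (apply_nonneg w (q : K))
    have h2 := mul_le_mul_of_nonneg_left (hs w) (apply_nonneg w (q' : K))
    linarith
  have htw : ∀ w : InfinitePlace K, w (t : K) ≤ τ := by
    intro w
    have h1 : (mk b e * N : ℝ) * w (t : K) ≤ (mk b e * N) * τ := by
      calc (mk b e * N : ℝ) * w (t : K) ≤ C * D * (w (q : K) + w (q' : K)) := hdw w
        _ ≤ C * D * (C * T + C * T) := by gcongr; exacts [hq w, hq' w]
        _ = (D * T) * τ := by rw [hτ]; ring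
        _ = _ := by rw [hDT]
    exact le_of_mul_le_mul_left h1 (by positivity)
  have hqq : ∀ w : InfinitePlace K, c1 * T ≤ w (q : K) + w (q' : K) := by
    intro w
    have h1 := low_size ht0 hτ1 htw w
    rw [← hd] at h1
    have h2 := hdw w
    rw [← hDT] at h2
    have h3 : T * w (t : K) ≤ C * (w (q : K) + w (q' : K)) := by
      have h4 : D * (T * w (t : K)) ≤ D * (C * (w (q : K) + w (q' : K))) := by linarith
      exact le_of_mul_le_mul_left h4 hD0
    rw [hc1, div_mul_eq_mul_div, one_mul, div_le_iff₀ (by positivity)]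
    calc T = T * 1 := by ring
      _ ≤ T * (w (t : K) * τ ^ d) := by gcongr
      _ = (T * w (t : K)) * τ ^ d := by ring
      _ ≤ (C * (w (q : K) + w (q' : K))) * τ ^ d := by gcongr
      _ = _ := by ring
  -- the residue class
  obtain ⟨y0, hy0⟩ := avoid_all B hBp (XX b N t p q p' q') (fun v hv => by
    rw [hB] at hv
    exact exists_class hb hN hbc hbN hbg hL hL' ht0 ht v hv)
  obtain ⟨y1, hy1, hy1w⟩ := hrep B hBp y0
  have hyj : ∀ j : ℕ, (B : 𝓞 K) ∣ y1 + B * j - y0 := by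
    intro j
    have e1 : y1 + (B : 𝓞 K) * j - y0 = (y1 - y0) + B * j := by ring
    rw [e1]
    exact dvd_add hy1 (Dvd.intro _ rfl)
  have hyw : ∀ j : ℕ, j ≤ d → ∀ w : InfinitePlace K, w ((y1 + B * j : 𝓞 K) : K) ≤ Y := by
    intro j hj w
    have e1 : ((y1 + B * j : 𝓞 K) : K) = (y1 : K) + ((B * j : ℕ) : K) := by push_cast; ring
    rw [e1, hY]
    refine (w.1.add_le _ _).trans (add_le_add (hy1w w) ?_)
    have : w.1 ((B * j : ℕ) : K) = ((B * j : ℕ) : ℝ) := w_nat w _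
    rw [this]
    push_cast
    have hjR : (j : ℝ) ≤ d := by exact_mod_cast hj
    gcongr
  -- the choice of `j`
  obtain ⟨j, hj, hjw⟩ : ∃ j : ℕ, j ≤ d ∧ ∀ w : InfinitePlace K,
      c * T ≤ w ((q + (y1 + B * j) * q' : 𝓞 K) : K) := by
    by_contra hcon
    push Not at hcon
    have h1 : ∀ j : Fin (d + 1), ∃ w : InfinitePlace K,
        w ((q + (y1 + B * (j : ℕ)) * q' : 𝓞 K) : K) < c * T := fun j =>
      hcon j (Nat.lt_succ_iff.1 j.2)
    choose f hf using h1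
    have hcard : Fintype.card (InfinitePlace K) < Fintype.card (Fin (d + 1)) := by
      rw [Fintype.card_fin, hd]
      exact Nat.lt_succ_of_le (card_places K)
    obtain ⟨i, j, hij, hfij⟩ := Fintype.exists_ne_map_eq_of_card_lt f hcard
    have key : ∀ i j : Fin (d + 1), (i : ℕ) < j → f i = f j → False := by
      intro i j hlt hfe
      have h2 := hf i
      have h3 := hf j
      rw [← hfe] at h3
      set w := f i
      obtain ⟨k, hk⟩ := Nat.exists_eq_add_of_lt hlt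
      have e1 : ((B * (k + 1) : ℕ) : K) * (q' : K) =
          ((q + (y1 + B * (j : ℕ)) * q' : 𝓞 K) : K) + -((q + (y1 + B * (i : ℕ)) * q' : 𝓞 K) : K) := by
        rw [hk]; push_cast; ring
      have h4 : w (q' : K) ≤ 2 * (c * T) := by
        have h5 : w (((B * (k + 1) : ℕ) : K) * (q' : K)) ≤ 2 * (c * T) := by
          rw [e1]
          refine (w.1.add_le _ _).trans ?_
          rw [w.1.map_neg]
          have h6 : w.1 ((q + (y1 + B * (j : ℕ)) * q' : 𝓞 K) : K) < c * T := h3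
          have h7 : w.1 ((q + (y1 + B * (i : ℕ)) * q' : 𝓞 K) : K) < c * T := h2
          linarith
        rw [map_mul, w_nat] at h5
        have h6 : (1 : ℝ) ≤ ((B * (k + 1) : ℕ) : ℝ) := by
          have : 1 ≤ B * (k + 1) := Nat.mul_pos hBp (Nat.succ_pos k)
          exact_mod_cast this
        have h7 : 0 ≤ w (q' : K) := apply_nonneg w _
        nlinarith
      have h8 : w (q : K) ≤ c * T + Y * (2 * (c * T)) := by
        have e2 : (q : K) = ((q + (y1 + B * (i : ℕ)) * q' : 𝓞 K) : K) +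
            -(((y1 + B * (i : ℕ) : 𝓞 K) : K) * (q' : K)) := by
          push_cast; ring
        have h9 : w.1 (q : K) ≤ w.1 ((q + (y1 + B * (i : ℕ)) * q' : 𝓞 K) : K) +
            w.1 (-(((y1 + B * (i : ℕ) : 𝓞 K) : K) * (q' : K))) := by
          conv_lhs => rw [e2]
          exact w.1.add_le _ _
        rw [w.1.map_neg, w.1.map_mul] at h9
        have h10 : w.1 ((y1 + B * (i : ℕ) : 𝓞 K) : K) ≤ Y := hyw i (Nat.lt_succ_iff.1 i.2) w
        have h11 : w.1 (q' : K) ≤ 2 * (c * T) := h4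
        have h12 : w.1 ((q + (y1 + B * (i : ℕ)) * q' : 𝓞 K) : K) < c * T := h2
        have h13 : w.1 ((y1 + B * (i : ℕ) : 𝓞 K) : K) * w.1 (q' : K) ≤ Y * (2 * (c * T)) :=
          mul_le_mul h10 h11 (apply_nonneg _ _) hY0
        have h14 : w (q : K) = w.1 (q : K) := rfl
        linarith
      have h9 := hqq w
      rw [← hcY] at h9
      have h10 : 0 < c * T := by positivity
      nlinarith
    rcases lt_trichotomy (i : ℕ) j with h | h | h
    · exact key i j h hfij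
    · exact hij (Fin.ext h)
    · exact key j i h hfij.symm
  obtain ⟨z, hz⟩ : ∃ z : 𝓞 K, z = y1 + B * j := ⟨_, rfl⟩
  have hzw : ∀ w : InfinitePlace K, w (z : K) ≤ Y := hz ▸ hyw j hj
  have hzX : ∀ v : HeightOneSpectrum (𝓞 K), (B : 𝓞 K) ∈ v.asIdeal → XX b N t p q p' q' v z :=
    hy0 z (hz ▸ hyj j)
  rw [← hz] at hjw
  have hQ0 : q + z * q' ≠ 0 := by
    intro h0
    obtain ⟨w⟩ := (inferInstance : Nonempty (InfinitePlace K))
    have h1 := hjw w
    rw [h0] at h1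
    simp only [map_zero] at h1
    have : 0 < c * T := by positivity
    linarith
  have hmem : ∀ n : ℕ, n ∣ B → ∀ v : HeightOneSpectrum (𝓞 K), (n : 𝓞 K) ∈ v.asIdeal →
      (B : 𝓞 K) ∈ v.asIdeal := by
    rintro n ⟨m, hm⟩ v hv
    rw [hm]
    push_cast
    exact Ideal.mul_mem_right _ _ hv
  have dv0 : b 0 ∣ B := ⟨b 1 * b 2 * N, by rw [hB]; ring⟩
  have dv1 : b 1 ∣ B := ⟨b 0 * b 2 * N, by rw [hB]; ring⟩
  have dv2 : b 2 ∣ B := ⟨b 0 * b 1 * N, by rw [hB]; ring⟩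
  have dvN : N ∣ B := ⟨b 0 * b 1 * b 2, by rw [hB]; ring⟩
  refine ⟨p + z * p', q + z * q', t, ⟨?_, ?_, ?_, ?_⟩, hQ0, ht0, fun hP0 => ?_, fun w => ?_, hjw,
    fun w => ?_, fun w => ?_, fun v hv r hr => ?_⟩
  · exact dvd_add hL.1 (hL'.1.mul_left _)
  · exact dvd_add hL.2.1 (hL'.2.1.mul_left _)
  · have e1 : g * (q + z * q') - (p + z * p') = (g * q - p) + z * (g * q' - p') := by ring
    rw [e1]
    exact dvd_add hL.2.2.1 (hL'.2.2.1.mul_left _)
  · have e1 : p + z * p' - y * (q + z * q') = (p - y * q) + z * (p' - y * q') := by ring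
    rw [e1]
    exact dvd_add hL.2.2.2 (hL'.2.2.2.mul_left _)
  · refine memt (M := mk b e * N) hP0 hQ0 (Nat.mul_pos (mk_pos hb e) hN) ?_ (fun v hv => ?_)
    · have e1 : ((mk b e * N : ℕ) : 𝓞 K) * t = q' * (p + z * p') + (-p') * (q + z * q') := by
        push_cast
        rw [← ht]
        ring
      rw [e1]
      exact Ideal.add_mem _ (Ideal.mul_mem_left _ _ (Ideal.subset_span (by simp)))
        (Ideal.mul_mem_left _ _ (Ideal.subset_span (by simp)))
    · push_cast at hv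
      rw [mk_cast] at hv
      rcases v.isPrime.mem_or_mem hv with h1 | h1
      · rcases v.isPrime.mem_or_mem h1 with h2 | h2
        · rcases v.isPrime.mem_or_mem h2 with h3 | h3
          · have h4 := v.isPrime.mem_of_pow_mem _ h3
            exact Or.inl ((hzX v (hmem _ dv0 v h4)).1 (Or.inl h4))
          · have h4 := v.isPrime.mem_of_pow_mem _ h3
            exact Or.inr ((hzX v (hmem _ dv1 v h4)).2 (Or.inl h4))
        · have h4 := v.isPrime.mem_of_pow_mem _ h2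
          exact Or.inl ((hzX v (hmem _ dv2 v h4)).1 (Or.inr h4))
      · exact Or.inr ((hzX v (hmem _ dvN v h1)).2 (Or.inr h1))
  · rw [← hτ]
    exact htw w
  · have e1 : ((q + z * q' : 𝓞 K) : K) = (q : K) + (z : K) * (q' : K) := by push_cast; ring
    rw [e1]
    refine (w.1.add_le _ _).trans ?_
    rw [w.1.map_mul]
    have h1 : w.1 (q : K) ≤ C * T := hq w
    have h2 : w.1 (z : K) * w.1 (q' : K) ≤ Y * (C * T) :=
      mul_le_mul (hzw w) (hq' w) (apply_nonneg _ _) hY0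
    linarith
  · have e1 : mixedEmbedding K ((q + z * q' : 𝓞 K) : K) * ξ -
        mixedEmbedding K ((p + z * p' : 𝓞 K) : K) =
        (mixedEmbedding K (q : K) * ξ - mixedEmbedding K (p : K)) +
          mixedEmbedding K (z : K) *
            (mixedEmbedding K (q' : K) * ξ - mixedEmbedding K (p' : K)) := by
      have e2 : ((q + z * q' : 𝓞 K) : K) = (q : K) + (z : K) * (q' : K) := by push_cast; ring
      have e3 : ((p + z * p' : 𝓞 K) : K) = (p : K) + (z : K) * (p' : K) := by push_cast; ring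
      rw [e2, e3, map_add, map_add, map_mul, map_mul]
      ring
    rw [e1]
    refine (mixedEmbedding.normAtPlace_add_le w _ _).trans ?_
    rw [map_mul, mixedEmbedding.normAtPlace_apply]
    have h2 : w (z : K) * mixedEmbedding.normAtPlace w
        (mixedEmbedding K (q' : K) * ξ - mixedEmbedding K (p' : K)) ≤ Y * (C * D) :=
      mul_le_mul (hzw w) (hs' w) (mixedEmbedding.normAtPlace_nonneg _ _) hY0
    have := hs w
    linarith
  · exact (hzX v (hmem _ dvN v hv)).2 (Or.inr hv) r hr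

end Pool.Agent.H34x.KG
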