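import Pool.Agent.H34x.KG.Lat

/-!
# Two independent points of the lattices at infinitely many scales
-/

set_option autoImplicit false

namespace Pool.Agent.H34x.KG

open NumberField Finset Filter Topology
open Pool.Agent.H34x.MA (TT ex ex_ge ex_le ex_mono TT_mono TT_nonneg TT_succ log2_pos exp_TT
  exp_TT_zero)

variable {K : Type} [Field K] [NumberField K]

/-- the exponents at the scale `m` -/
noncomputable def ee (b : Fin 3 → ℕ) (a : Fin 3 → ℝ) (m : ℕ) (i : Fin 3) : ℕ :=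
  ex (b i) (a i * TT m)

theorem ee_mono {b : Fin 3 → ℕ} {a : Fin 3 → ℝ} (hb : ∀ i, 2 ≤ b i) (ha : ∀ i, 0 ≤ a i) {m n : ℕ}
    (h : m ≤ n) (i : Fin 3) : ee b a m i ≤ ee b a n i :=
  ex_mono (hb i) (mul_le_mul_of_nonneg_left (TT_mono h) (ha i))

theorem ee_ge {b : Fin 3 → ℕ} (a : Fin 3 → ℝ) (hb : ∀ i, 2 ≤ b i) (m : ℕ) (i : Fin 3) :
    Real.exp (a i * TT m) ≤ (b i : ℝ) ^ ee b a m i := ex_ge (hb i) _

theorem ee_le {b : Fin 3 → ℕ} {a : Fin 3 → ℝ} (hb : ∀ i, 2 ≤ b i) (ha : ∀ i, 0 ≤ a i) (m : ℕ)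
    (i : Fin 3) : (b i : ℝ) ^ ee b a m i ≤ b i * Real.exp (a i * TT m) :=
  ex_le (hb i) (mul_nonneg (ha i) (TT_nonneg m))

theorem mk_ge {b : Fin 3 → ℕ} (a : Fin 3 → ℝ) (hb : ∀ i, 2 ≤ b i) (m : ℕ) :
    Real.exp ((∑ i, a i) * TT m) ≤ mk b (ee b a m) := by
  rw [mk_castR, Fin.sum_univ_three]
  have h0 := ee_ge a hb m 0
  have h1 := ee_ge a hb m 1
  have h2 := ee_ge a hb m 2
  calc Real.exp ((a 0 + a 1 + a 2) * TT m) =
        Real.exp (a 0 * TT m) * Real.exp (a 1 * TT m) * Real.exp (a 2 * TT m) := by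
        rw [← Real.exp_add, ← Real.exp_add]; congr 1; ring
    _ ≤ _ := by gcongr

theorem mk_le {b : Fin 3 → ℕ} {a : Fin 3 → ℝ} (hb : ∀ i, 2 ≤ b i) (ha : ∀ i, 0 ≤ a i) (m : ℕ) :
    (mk b (ee b a m) : ℝ) ≤ (b 0 * b 1 * b 2) * Real.exp ((∑ i, a i) * TT m) := by
  rw [mk_castR, Fin.sum_univ_three]
  have h0 := ee_le hb ha m 0
  have h1 := ee_le hb ha m 1
  have h2 := ee_le hb ha m 2
  calc (b 0 : ℝ) ^ ee b a m 0 * (b 1 : ℝ) ^ ee b a m 1 * (b 2 : ℝ) ^ ee b a m 2
      ≤ (b 0 * Real.exp (a 0 * TT m)) * (b 1 * Real.exp (a 1 * TT m)) *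
        (b 2 * Real.exp (a 2 * TT m)) := by gcongr
    _ = (b 0 * b 1 * b 2) *
        (Real.exp (a 0 * TT m) * Real.exp (a 1 * TT m) * Real.exp (a 2 * TT m)) := by ring
    _ = _ := by
        rw [← Real.exp_add, ← Real.exp_add]; congr 2; ring

theorem mk_succ {b : Fin 3 → ℕ} {a : Fin 3 → ℝ} (hb : ∀ i, 2 ≤ b i) (ha : ∀ i, 0 ≤ a i)
    (ha1 : ∀ i, a i ≤ 1) (m : ℕ) : (mk b (ee b a (m + 1)) : ℝ) ≤
      8 * (b 0 * b 1 * b 2) * mk b (ee b a m) := by
  have h1 := mk_le hb ha (m + 1)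
  have h2 := mk_ge a hb m
  have hs : ∑ i, a i ≤ 3 := by
    rw [Fin.sum_univ_three]
    have := ha1 0; have := ha1 1; have := ha1 2
    linarith
  have h3 : Real.exp ((∑ i, a i) * TT (m + 1)) ≤ 8 * Real.exp ((∑ i, a i) * TT m) := by
    rw [TT_succ, mul_add, Real.exp_add, mul_comm]
    have h4 : Real.exp ((∑ i, a i) * Real.log 2) ≤ 8 := by
      calc Real.exp ((∑ i, a i) * Real.log 2) ≤ Real.exp (3 * Real.log 2) := by
            apply Real.exp_le_exp.2
            have := log2_pos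
            nlinarith
        _ = 8 := by
            rw [show (3 : ℝ) * Real.log 2 = Real.log 2 + Real.log 2 + Real.log 2 by ring,
              Real.exp_add, Real.exp_add, Real.exp_log (by norm_num)]
            norm_num
    have := Real.exp_pos ((∑ i, a i) * TT m)
    nlinarith
  have hB : (0 : ℝ) ≤ b 0 * b 1 * b 2 := by positivity
  calc (mk b (ee b a (m + 1)) : ℝ) ≤ (b 0 * b 1 * b 2) * Real.exp ((∑ i, a i) * TT (m + 1)) := h1
    _ ≤ (b 0 * b 1 * b 2) * (8 * Real.exp ((∑ i, a i) * TT m)) := by gcongr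
    _ ≤ (b 0 * b 1 * b 2) * (8 * mk b (ee b a m)) := by gcongr
    _ = _ := by ring

theorem nm_le {x : mixedEmbedding.mixedSpace K} {r : ℝ}
    (h : ∀ w : InfinitePlace K, mixedEmbedding.normAtPlace w x ≤ r) :
    mixedEmbedding.norm x ≤ r ^ Module.finrank ℚ K := by
  rw [mixedEmbedding.norm_apply]
  calc ∏ w : InfinitePlace K, mixedEmbedding.normAtPlace w x ^ w.mult ≤
        ∏ w : InfinitePlace K, r ^ w.mult :=
        Finset.prod_le_prod (fun w _ => pow_nonneg (mixedEmbedding.normAtPlace_nonneg _ _) _)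
          fun w _ => pow_le_pow_left₀ (mixedEmbedding.normAtPlace_nonneg _ _) (h w) _
    _ = r ^ Module.finrank ℚ K := by
        rw [Finset.prod_pow_eq_pow_sum, InfinitePlace.sum_mult_eq]

theorem one_le_nm {x : 𝓞 K} (hx : x ≠ 0) : 1 ≤ mixedEmbedding.norm (mixedEmbedding K (x : K)) := by
  rw [mixedEmbedding.norm_eq_norm, ← Algebra.coe_norm_int]
  have h1 : Algebra.norm ℤ x ≠ 0 := by rwa [Ne, Algebra.norm_eq_zero_iff]
  have h2 : (1 : ℤ) ≤ |Algebra.norm ℤ x| := Int.one_le_abs h1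
  have h3 : ((1 : ℤ) : ℝ) ≤ ((|Algebra.norm ℤ x| : ℤ) : ℝ) := by exact_mod_cast h2
  push_cast at h3 ⊢
  exact h3

theorem nm_dvd {M : ℕ} {x : 𝓞 K} (hx : x ≠ 0) (h : (M : 𝓞 K) ∣ x) :
    (M : ℝ) ^ Module.finrank ℚ K ≤ mixedEmbedding.norm (mixedEmbedding K (x : K)) := by
  obtain ⟨z, hz⟩ := h
  have hz0 : z ≠ 0 := by rintro rfl; exact hx (by rw [hz, mul_zero])
  have e1 : mixedEmbedding K (x : K) = (M : ℝ) • mixedEmbedding K (z : K) := by
    have : (x : K) = ((M : ℕ) : K) * (z : K) := by rw [hz]; push_cast; ring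
    rw [this, map_mul, map_natCast, ← nsmul_eq_mul, ← Nat.cast_smul_eq_nsmul ℝ]
  rw [e1, mixedEmbedding.norm_smul, Nat.abs_cast]
  have := one_le_nm hz0
  exact le_mul_of_one_le_right (by positivity) this

theorem exp_zero' {C x : ℝ} (hx : 0 < x) {d : ℕ} (hd : 0 < d) (c : ℝ) (hc : 0 ≤ c) :
    Tendsto (fun m => c * (C * Real.exp (-x * TT m)) ^ d) atTop (𝓝 0) := by
  have h := ((exp_TT_zero hx C).pow d).const_mul c
  rw [zero_pow hd.ne', mul_zero] at h
  exact h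

/-- the condition on the point -/
def Cd (a : Fin 3 → ℝ) (g : ℕ) (ξ : mixedEmbedding.mixedSpace K) : Prop :=
  mixedEmbedding.norm ξ ≠ 0 ∧ mixedEmbedding.norm (ξ - mixedEmbedding K (g : K)) ≠ 0 ∧
    ((∀ x : K, mixedEmbedding.norm (ξ - mixedEmbedding K x) ≠ 0) ∨ 1 < ∑ i, a i)

theorem two_points (K : Type) [Field K] [NumberField K] (b : Fin 3 → ℕ) (hb : ∀ i, 2 ≤ b i)
    (hbc : ∀ i j, i ≠ j → Nat.Coprime (b i) (b j)) : ∃ C : ℝ, 1 ≤ C ∧ ∀ (N g : ℕ), 0 < N →
    0 < g → (∀ i, Nat.Coprime (b i) N) → (∀ i, Nat.Coprime (b i) g) →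
    ∀ a : Fin 3 → ℝ, (∀ i, 0 ≤ a i) → (∀ i, a i < 1) →
    ∀ (y : 𝓞 K) (ξ : mixedEmbedding.mixedSpace K), Cd a g ξ → ∀ m0 : ℕ, ∃ m, m0 ≤ m ∧
      ∃ p q p' q' : 𝓞 K, LK b (ee b a m) N g y p q ∧ LK b (ee b a m) N g y p' q' ∧
        p * q' - p' * q ≠ 0 ∧ (∀ w : InfinitePlace K, w (q : K) ≤ C * 2 ^ m) ∧
        (∀ w : InfinitePlace K, w (q' : K) ≤ C * 2 ^ m) ∧
        (∀ w : InfinitePlace K, mixedEmbedding.normAtPlace w
          (mixedEmbedding K (q : K) * ξ - mixedEmbedding K (p : K)) ≤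
            C * (mk b (ee b a m) * N / 2 ^ m)) ∧
        (∀ w : InfinitePlace K, mixedEmbedding.normAtPlace w
          (mixedEmbedding K (q' : K) * ξ - mixedEmbedding K (p' : K)) ≤
            C * (mk b (ee b a m) * N / 2 ^ m)) := by
  obtain ⟨C0, hC0, hdir⟩ := dirL K
  have hbpos : ∀ i, 0 < b i := fun i => by have := hb i; omega
  have hbR : ∀ i, (2 : ℝ) ≤ b i := fun i => by exact_mod_cast hb i
  have hbR0 : ∀ i, (0 : ℝ) < b i := fun i => by have := hbR i; linarith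
  obtain ⟨Bc, hBc⟩ : ∃ Bc : ℝ, Bc = b 0 * b 1 * b 2 := ⟨_, rfl⟩
  have hBc8 : 8 ≤ Bc := by
    rw [hBc]
    have h0 := hbR 0; have h1 := hbR 1; have h2 := hbR 2
    calc (8 : ℝ) = 2 * 2 * 2 := by norm_num
      _ ≤ b 0 * b 1 * b 2 := by gcongr
  have hb0Bc : (b 0 : ℝ) ≤ Bc := by
    rw [hBc]
    have h1 := hbR 1; have h2 := hbR 2; have h0 := hbR0 0
    calc (b 0 : ℝ) = b 0 * 1 * 1 := by ring
      _ ≤ b 0 * b 1 * b 2 := by gcongr <;> linarith
  obtain ⟨C, hCd⟩ : ∃ C : ℝ, C = 4 * C0 * Bc := ⟨_, rfl⟩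
  have hC1 : 1 ≤ C := by rw [hCd]; nlinarith
  have hC0p : 0 < C0 := by linarith
  refine ⟨C, hC1, ?_⟩
  intro N g hN hg hbN hbg a ha ha1 y ξ hcd m0
  have hNR : (0 : ℝ) < N := by exact_mod_cast hN
  have hT2 : ∀ m : ℕ, (0 : ℝ) < 2 ^ m := fun m => by positivity
  have hD : ∀ m : ℕ, ∃ p q : 𝓞 K, q ≠ 0 ∧ LK b (ee b a m) N g y p q ∧
      (∀ w : InfinitePlace K, w (q : K) ≤ C0 * (1 + b 0) * 2 ^ m) ∧
      ∀ w : InfinitePlace K, mixedEmbedding.normAtPlace w
        (mixedEmbedding K (q : K) * ξ - mixedEmbedding K (p : K)) ≤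
          C0 * (mk b (ee b a m) * N / 2 ^ m) := by
    intro m
    refine hdir b (ee b a m) N g hbc hbN hbpos hN y (2 ^ m) (hT2 m) ?_ ξ
    refine (ee_le hb ha m 0).trans ?_
    rw [exp_TT]
    have := TT_nonneg m
    have h1 := ha1 0
    have h2 := hbR0 0
    gcongr
    nlinarith
  choose p q hq0 hL hqs hds using hD
  have hqs1 : ∀ m, ∀ w : InfinitePlace K, w (q m : K) ≤ C / 2 * 2 ^ m := fun m w =>
    (hqs m w).trans (by
      have : C0 * (1 + b 0) ≤ C / 2 := by rw [hCd]; nlinarith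
      have := hT2 m
      gcongr)
  have hCC : C0 ≤ C := by rw [hCd]; nlinarith
  have hmkp : ∀ m, (0 : ℝ) < mk b (ee b a m) := fun m => by exact_mod_cast mk_pos hbpos _
  by_contra hcon
  push Not at hcon
  have hdet : ∀ m, m0 ≤ m → p m * q (m + 1) - p (m + 1) * q m = 0 := by
    intro m hm
    by_contra hne
    obtain ⟨w, hw⟩ := hcon m hm (p m) (q m) (p (m + 1)) (q (m + 1)) (hL m)
      (LK.mono (ee_mono hb ha (Nat.le_succ m)) (hL (m + 1))) hne
      (fun w => (hqs1 m w).trans (by have := hT2 m; nlinarith))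
      (fun w => (hqs1 (m + 1) w).trans (by rw [pow_succ]; exact le_of_eq (by ring)))
      (fun w => (hds m w).trans (by
        have := hmkp m
        have := hT2 m
        gcongr))
    refine absurd (hds (m + 1) w) (not_le.2 (lt_of_le_of_lt ?_ hw))
    have h1 := mk_succ hb ha (fun i => (ha1 i).le) m
    rw [← hBc] at h1
    rw [hCd, pow_succ]
    calc C0 * ((mk b (ee b a (m + 1)) : ℝ) * N / (2 ^ m * 2))
        ≤ C0 * ((8 * Bc * mk b (ee b a m)) * N / (2 ^ m * 2)) := by gcongr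
      _ = 4 * C0 * Bc * (mk b (ee b a m) * N / 2 ^ m) := by ring
  have hline : ∀ k, p (m0 + k) * q m0 = p m0 * q (m0 + k) := by
    intro k
    induction k with
    | zero => simp
    | succ k ih =>
      have h2 := hdet (m0 + k) (Nat.le_add_right _ _)
      have h3 : q (m0 + k) ≠ 0 := hq0 _
      have h4 : q (m0 + k) * (p (m0 + (k + 1)) * q m0 - p m0 * q (m0 + (k + 1))) = 0 := by
        rw [show m0 + (k + 1) = m0 + k + 1 by ring]
        linear_combination (q (m0 + k + 1)) * ih - (q m0) * h2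
      rcases mul_eq_zero.1 h4 with h5 | h5
      · exact absurd h5 h3
      · exact sub_eq_zero.1 h5
  obtain ⟨A, hA⟩ : ∃ A, A = p m0 := ⟨_, rfl⟩
  obtain ⟨B, hB⟩ : ∃ B, B = q m0 := ⟨_, rfl⟩
  have hB0 : B ≠ 0 := hB ▸ hq0 m0
  have hBK : (B : K) ≠ 0 := by exact_mod_cast hB0
  have hl : ∀ m, m0 ≤ m → p m * B = A * q m := by
    intro m hm
    obtain ⟨k, rfl⟩ := Nat.exists_eq_add_of_le hm
    rw [hA, hB]
    exact hline k
  obtain ⟨d, hd⟩ : ∃ d, d = Module.finrank ℚ K := ⟨_, rfl⟩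
  have hd0 : 0 < d := hd ▸ Module.finrank_pos
  -- the quotient
  have hquo : ∀ m, m0 ≤ m → mixedEmbedding K (q m : K) * ξ - mixedEmbedding K (p m : K) =
      mixedEmbedding K (q m : K) * (ξ - mixedEmbedding K ((A : K) / B)) := by
    intro m hm
    have h1 : (p m : K) = (q m : K) * ((A : K) / B) := by
      have h2 : (p m : K) * B = A * q m := by exact_mod_cast congrArg (fun z : 𝓞 K => (z : K)) (hl m hm)
      field_simp
      linear_combination h2
    rw [h1, map_mul, mul_sub]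
  have hnm : ∀ m, m0 ≤ m → mixedEmbedding.norm (mixedEmbedding K (q m : K)) *
      mixedEmbedding.norm (ξ - mixedEmbedding K ((A : K) / B)) ≤
        (C0 * (mk b (ee b a m) * N / 2 ^ m)) ^ d := by
    intro m hm
    rw [← map_mul, ← hquo m hm, hd]
    exact nm_le (hds m)
  obtain ⟨hcd0, hcd1, hcd2⟩ := hcd
  -- a general limit argument
  have hlim : ∀ (z u : ℝ) (i : Fin 3) (c : ℝ), 0 ≤ z → u < 1 → 0 ≤ c →
      (∀ m, m0 ≤ m → z ≤ c * (C0 * N * b i * Real.exp ((u - 1) * TT m)) ^ d) → z = 0 := by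
    intro z u i c hz hu hc h
    have h3 := exp_zero' (C := C0 * N * b i) (x := 1 - u) (by linarith) hd0 c hc
    apply le_antisymm _ hz
    refine ge_of_tendsto h3 ?_
    filter_upwards [eventually_ge_atTop m0] with m hm
    have := h m hm
    rwa [show (u - 1) * TT m = -(1 - u) * TT m by ring] at this
  have hpow : ∀ (M : ℕ) (z x r : ℝ), 0 < M → (M : ℝ) ^ d ≤ z → z * x ≤ (M * r) ^ d → 0 ≤ x →
      x ≤ r ^ d := by
    intro M z x r hM h1 h2 hx
    have hMR : (0 : ℝ) < M := by exact_mod_cast hM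
    have h3 : (M : ℝ) ^ d * x ≤ (M : ℝ) ^ d * r ^ d := by
      rw [← mul_pow]
      exact (mul_le_mul_of_nonneg_right h1 hx).trans h2
    exact le_of_mul_le_mul_left h3 (by positivity)
  have hnonneg : ∀ z : mixedEmbedding.mixedSpace K, 0 ≤ mixedEmbedding.norm z := fun z =>
    mixedEmbedding.norm_nonneg z
  by_cases hA0 : A = 0
  · apply hcd0
    have hx0 : (A : K) / B = 0 := by rw [hA0]; simp
    rw [hx0, map_zero, sub_zero] at hnm
    refine hlim _ (a 1) 1 1 (hnonneg _) (ha1 1) zero_le_one fun m hm => ?_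
    rw [one_mul]
    have hp0 : p m = 0 := by
      have := hl m hm
      rw [hA0, zero_mul] at this
      exact (mul_eq_zero.1 this).resolve_right hB0
    have hLm := hL m
    unfold LK at hLm
    rw [hp0, sub_zero] at hLm
    obtain ⟨k0, -, k2, -⟩ := hLm
    replace k2 := ((cast_coprime (hbg 2)).pow_left).dvd_of_dvd_mul_left k2
    have h4 : (((b 0 ^ ee b a m 0 * b 2 ^ ee b a m 2 : ℕ)) : 𝓞 K) ∣ q m := by
      push_cast
      exact ((cast_coprime (hbc 0 2 (by decide))).pow).mul_dvd k0 k2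
    have h5 := nm_dvd (hq0 m) h4
    rw [← hd] at h5
    refine hpow _ _ _ _ (by have := hbpos 0; have := hbpos 2; positivity) h5
      ((hnm m hm).trans (pow_le_pow_left₀ (by have := hmkp m; positivity) ?_ d)) (hnonneg _)
    have h6 := ee_le hb ha m 1
    have h7 : Real.exp ((a 1 - 1) * TT m) = Real.exp (a 1 * TT m) / 2 ^ m := by
      rw [exp_TT, ← Real.exp_sub]; congr 1; ring
    rw [mk_castR, h7]
    push_cast
    have := hbR0 0; have := hbR0 1; have := hbR0 2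
    calc C0 * ((b 0 : ℝ) ^ ee b a m 0 * (b 1 : ℝ) ^ ee b a m 1 * (b 2 : ℝ) ^ ee b a m 2 * N / 2 ^ m)
        ≤ C0 * ((b 0 : ℝ) ^ ee b a m 0 * (b 1 * Real.exp (a 1 * TT m)) *
          (b 2 : ℝ) ^ ee b a m 2 * N / 2 ^ m) := by gcongr
      _ = _ := by ring
  by_cases hA1 : g * B - A = 0
  · apply hcd1
    have hAB : A = g * B := (sub_eq_zero.1 hA1).symm
    have hx0 : (A : K) / B = (g : K) := by rw [hAB]; push_cast; field_simp
    rw [hx0] at hnm
    refine hlim _ (a 2) 2 1 (hnonneg _) (ha1 2) zero_le_one fun m hm => ?_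
    rw [one_mul]
    have hp0 : p m = g * q m := by
      have := hl m hm
      rw [hAB] at this
      have h2 : B * (p m - g * q m) = 0 := by linear_combination this
      exact sub_eq_zero.1 ((mul_eq_zero.1 h2).resolve_left hB0)
    have hLm := hL m
    unfold LK at hLm
    rw [hp0] at hLm
    obtain ⟨k0, k1, -, -⟩ := hLm
    replace k1 := ((cast_coprime (hbg 1)).pow_left).dvd_of_dvd_mul_left k1
    have h4 : (((b 0 ^ ee b a m 0 * b 1 ^ ee b a m 1 : ℕ)) : 𝓞 K) ∣ q m := by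
      push_cast
      exact ((cast_coprime (hbc 0 1 (by decide))).pow).mul_dvd k0 k1
    have h5 := nm_dvd (hq0 m) h4
    rw [← hd] at h5
    refine hpow _ _ _ _ (by have := hbpos 0; have := hbpos 1; positivity) h5
      ((hnm m hm).trans (pow_le_pow_left₀ (by have := hmkp m; positivity) ?_ d)) (hnonneg _)
    have h6 := ee_le hb ha m 2
    have h7 : Real.exp ((a 2 - 1) * TT m) = Real.exp (a 2 * TT m) / 2 ^ m := by
      rw [exp_TT, ← Real.exp_sub]; congr 1; ring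
    rw [mk_castR, h7]
    push_cast
    have := hbR0 0; have := hbR0 1; have := hbR0 2
    calc C0 * ((b 0 : ℝ) ^ ee b a m 0 * (b 1 : ℝ) ^ ee b a m 1 * (b 2 : ℝ) ^ ee b a m 2 * N / 2 ^ m)
        ≤ C0 * ((b 0 : ℝ) ^ ee b a m 0 * (b 1 : ℝ) ^ ee b a m 1 *
          (b 2 * Real.exp (a 2 * TT m)) * N / 2 ^ m) := by gcongr
      _ = _ := by ring
  -- the general case
  obtain ⟨n, hn⟩ : ∃ n : 𝓞 K, n = A * B * (g * B - A) := ⟨_, rfl⟩
  have hn0 : n ≠ 0 := by
    rw [hn]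
    exact mul_ne_zero (mul_ne_zero hA0 hB0) hA1
  obtain ⟨ν, hν⟩ : ∃ ν : ℝ, ν = mixedEmbedding.norm (mixedEmbedding K (n : K)) := ⟨_, rfl⟩
  have hν1 : 1 ≤ ν := hν ▸ one_le_nm hn0
  have hν0 : 0 < ν := by linarith
  have hMq : ∀ m, m0 ≤ m → ((mk b (ee b a m) : ℕ) : ℝ) ^ d ≤
      mixedEmbedding.norm (mixedEmbedding K (q m : K)) * ν := by
    intro m hm
    have hLm := hL m
    obtain ⟨k0, k1, k2, -⟩ := hLm
    have h2 : ((mk b (ee b a m) : ℕ) : 𝓞 K) ∣ q m * n := by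
      refine three_dvd hbc fun i => ?_
      fin_cases i
      · exact k0.mul_right _
      · have e1 : q m * n = p m * (B * B * (g * B - A)) := by
          rw [hn]; linear_combination (-(B * (g * B - A))) * hl m hm
        simp only [Fin.mk_one]
        rw [e1]
        exact k1.mul_right _
      · have e1 : q m * n = (g * q m - p m) * (A * B * B) := by
          rw [hn]; linear_combination (A * B) * hl m hm
        rw [e1]
        exact k2.mul_right _
    have h3 := nm_dvd (mul_ne_zero (hq0 m) hn0) h2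
    rw [← hd] at h3
    have e1 : ((q m * n : 𝓞 K) : K) = (q m : K) * (n : K) := by push_cast; ring
    rw [e1, map_mul, map_mul, ← hν] at h3
    exact h3
  rcases hcd2 with hirr | hs
  · apply hirr ((A : K) / B)
    refine hlim _ 0 0 ν (hnonneg _) (by norm_num) hν0.le fun m hm => ?_
    have h1 := hMq m hm
    have h2 := hnm m hm
    obtain ⟨z, hz⟩ : ∃ z, z = mixedEmbedding.norm (ξ - mixedEmbedding K ((A : K) / B)) := ⟨_, rfl⟩
    rw [← hz] at h2 ⊢
    have hz0 : 0 ≤ z := hz ▸ hnonneg _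
    have hmk := hmkp m
    have h3 : (mk b (ee b a m) : ℝ) ^ d * z ≤ (mk b (ee b a m) : ℝ) ^ d *
        (ν * (C0 * N / 2 ^ m) ^ d) := by
      calc (mk b (ee b a m) : ℝ) ^ d * z
          ≤ mixedEmbedding.norm (mixedEmbedding K (q m : K)) * ν * z := by gcongr
        _ = ν * (mixedEmbedding.norm (mixedEmbedding K (q m : K)) * z) := by ring
        _ ≤ ν * (C0 * (mk b (ee b a m) * N / 2 ^ m)) ^ d := by gcongr
        _ = ν * ((mk b (ee b a m)) * (C0 * N / 2 ^ m)) ^ d := by congr 2; ring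
        _ = _ := by rw [mul_pow]; ring
    have h4 := le_of_mul_le_mul_left h3 (by positivity)
    refine h4.trans ?_
    have h7 : Real.exp ((0 - 1) * TT m) = 1 / 2 ^ m := by
      rw [exp_TT, zero_sub, neg_one_mul, Real.exp_neg]; ring
    rw [h7]
    have := hbR 0
    have h8 : C0 * N / 2 ^ m ≤ C0 * N * b 0 * (1 / 2 ^ m) := by
      have h9 : 0 ≤ C0 * N / 2 ^ m := by positivity
      calc C0 * N / 2 ^ m = C0 * N / 2 ^ m * 1 := by ring
        _ ≤ C0 * N / 2 ^ m * b 0 := by gcongr; linarith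
        _ = _ := by ring
    gcongr
  · have h2 : ∀ m, m0 ≤ m → 1 ≤ ν * (C * Real.exp (-(∑ i, a i - 1) * TT m)) ^ d := by
      intro m hm
      have h1 := hMq m hm
      have h3 : mixedEmbedding.norm (mixedEmbedding K (q m : K)) ≤ (C * 2 ^ m) ^ d := by
        rw [hd]
        apply nm_le
        intro w
        rw [mixedEmbedding.normAtPlace_apply]
        refine (hqs1 m w).trans ?_
        have := hT2 m
        nlinarith
      have h4 := mk_ge a hb m
      have h5 : (Real.exp ((∑ i, a i) * TT m)) ^ d ≤ (C * 2 ^ m) ^ d * ν := by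
        calc (Real.exp ((∑ i, a i) * TT m)) ^ d ≤ ((mk b (ee b a m) : ℕ) : ℝ) ^ d := by gcongr
          _ ≤ _ := h1
          _ ≤ _ := by gcongr
      have h6 : Real.exp (-(∑ i, a i - 1) * TT m) =
          2 ^ m / Real.exp ((∑ i, a i) * TT m) := by
        rw [exp_TT, ← Real.exp_sub]; congr 1; ring
      rw [h6]
      have h7 : ν * (C * (2 ^ m / Real.exp ((∑ i, a i) * TT m))) ^ d =
          (C * 2 ^ m) ^ d * ν / (Real.exp ((∑ i, a i) * TT m)) ^ d := by
        rw [show C * (2 ^ m / Real.exp ((∑ i, a i) * TT m)) =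
          (C * 2 ^ m) / Real.exp ((∑ i, a i) * TT m) by ring, div_pow]
        ring
      rw [h7, le_div_iff₀ (by positivity), one_mul]
      exact h5
    have h3 := exp_zero' (C := C) (x := ∑ i, a i - 1) (by linarith) hd0 ν hν0.le
    have h4 : (1 : ℝ) ≤ 0 := by
      refine ge_of_tendsto h3 ?_
      filter_upwards [eventually_ge_atTop m0] with m hm
      exact h2 m hm
    linarith

end Pool.Agent.H34x.KG
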